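import Mathlib
import Pool.Agent.L0h42.PP.WC
import Pool.Agent.L0h42.TB.B21

/-! Statements of the modules of the project CL: for almost all constant terms, clusters of primes `f (t + h l)` among the
values of a quadratic polynomial at arguments a bounded distance apart. -/

set_option autoImplicit false

namespace Pool.Agent.L0h42.CL
open Finset
open Pool.Agent.L0h42.TB
open Pool.Agent.H373R2.T7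
open Pool.Agent.H807R2.Dav

/-- the quadratic polynomial without its constant term -/
def gz (a0 b0 t : ℤ) : ℤ := a0 * t ^ 2 + b0 * t

/-- the shift vector of an argument: `d ∣ a - cq t l` says `d ∣ a + gz (t + h l)` -/
def cq {k : ℕ} (a0 b0 : ℤ) (h : Fin k → ℕ) (t : ℤ) : Fin k → ℤ := fun l => -gz a0 b0 (t + h l)

open Classical in
/-- the number of excluded classes of arguments modulo `p`, constant term `a` -/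
noncomputable def nuq {k : ℕ} (a0 b0 : ℤ) (h : Fin k → ℕ) (p a : ℕ) : ℕ :=
  ((range p).filter (fun τ : ℕ => Som (cq a0 b0 h τ) p a)).card

/-- the sieve density, constant term `a` -/
noncomputable def Vq {k : ℕ} (a0 b0 : ℤ) (h : Fin k → ℕ) (z a : ℕ) : ℝ := ∏ p ∈ pz z, (1 - (nuq a0 b0 h p a : ℝ) / p)

/-- the modulus of a pair of tuples -/
def mo {k : ℕ} (x : (Fin k → ℕ) × (Fin k → ℕ)) : ℕ := ∏ l, lc x l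

open Classical in
/-- the number of classes of arguments which solve the system -/
noncomputable def roq {k : ℕ} (a0 b0 : ℤ) (h : Fin k → ℕ) (x : (Fin k → ℕ) × (Fin k → ℕ)) (a : ℕ) : ℕ :=
  ((range (mo x)).filter (fun τ : ℕ => Hit (cq a0 b0 h τ) (lc x) a)).card

open Classical in
/-- the pairs of tuples without conflict -/
noncomputable def NCF (k z R : ℕ) : Finset ((Fin k → ℕ) × (Fin k → ℕ)) := (PD (Fin k) z R ×ˢ PD (Fin k) z R).filter (fun x => ¬ Conf x)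

open Classical in
/-- the pairs of tuples with conflict -/
noncomputable def CFS (k z R : ℕ) : Finset ((Fin k → ℕ) × (Fin k → ℕ)) := (PD (Fin k) z R ×ˢ PD (Fin k) z R).filter (fun x => Conf x)

/-- the value of the polynomial -/
def va (a0 b0 : ℤ) (a t : ℕ) : ℕ := ((a : ℤ) + gz a0 b0 t).toNat

/-- the difference between the primes and their model -/
noncomputable def dl (z n : ℕ) : ℝ := pl n - lamz z n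

open Classical in
/-- the arguments which solve the system and are divisible by the primes of `S` -/
noncomputable def TT {k : ℕ} (a0 b0 : ℤ) (h : Fin k → ℕ) (T1 T2 : ℕ) (d : Fin k → ℕ) (S : Finset ℕ) (a : ℕ) : Finset ℕ :=
  (Ioc T1 T2).filter (fun t : ℕ => Hit (cq a0 b0 h t) d a ∧ ∀ p ∈ S, Som (cq a0 b0 h t) p a)

open Classical in
/-- the arguments which solve the system and survive the sieve -/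
noncomputable def TR {k : ℕ} (a0 b0 : ℤ) (h : Fin k → ℕ) (T1 T2 z : ℕ) (d : Fin k → ℕ) (a : ℕ) : Finset ℕ :=
  (Ioc T1 T2).filter (fun t : ℕ => Hit (cq a0 b0 h t) d a ∧ Rgh z (cq a0 b0 h t) a)

/-! ### the main terms -/

open Classical in
/-- GC: the sieve with arbitrary classes, along a progression -/
def S_GC : Prop := ∀ (P : ℕ → ℕ → Prop) (D τ z u1 u2 r K : ℕ), 1 ≤ K → 1 ≤ D → (∀ p ∈ pz z, ¬ p ∣ D) → u1 ≤ u2 →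
    (∀ p ∈ pz z, ∀ t, P p (t % p) ↔ P p t) → (∀ p ∈ pz z, ((range p).filter (P p)).card ≤ K) →
    |(((Ioc u1 u2).filter (fun t => t % D = τ % D ∧ ∀ p ∈ pz z, ¬ P p t)).card : ℝ) -
      ((u2 : ℝ) - u1) / D * ∏ p ∈ pz z, (1 - (((range p).filter (P p)).card : ℝ) / p)| ≤
      2 * (((z : ℝ) + 1) ^ r * (K : ℝ) ^ r) + 4 * (((u2 : ℝ) - u1) / D) * Real.exp (3 * (K * (1 + Real.log z)) - r)

/-- CNT: the count for one constant term and one pair without conflict (uses GC) -/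
def S_CNT : Prop := ∀ (k K : ℕ) (a0 b0 : ℤ) (h : Fin k → ℕ) (z R r T1 T2 a : ℕ), 1 ≤ a0 → 1 ≤ K → 2 * k + a0.toNat ≤ K → T1 ≤ T2 →
    ∀ x ∈ NCF k z R,
    |((TR a0 b0 h T1 T2 z (lc x) a).card : ℝ) - roq a0 b0 h x a * (((T2 : ℝ) - T1) / mo x * Vq a0 b0 h z a)| ≤
      roq a0 b0 h x a * (2 * (((z : ℝ) + 1) ^ r * (K : ℝ) ^ r) + 4 * (((T2 : ℝ) - T1) / mo x) * Real.exp (3 * (K * (1 + Real.log z)) - r))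

/-- R2: the number of classes on average over the constant term -/
def S_R2 : Prop := ∀ (k : ℕ) (a0 b0 : ℤ) (h : Fin k → ℕ) (z R X : ℕ), 1 ≤ a0 → a0 ≤ z →
    ∀ x ∈ NCF k z R,
    |(∑ a ∈ Icc 1 X, (roq a0 b0 h x a : ℝ)) - X| ≤ mo x ∧
    ∀ x' ∈ NCF k z R,
    ((mo x).Coprime (mo x') → |(∑ a ∈ Icc 1 X, (roq a0 b0 h x a : ℝ) * roq a0 b0 h x' a) - X| ≤ mo x * mo x') ∧
    ∑ a ∈ Icc 1 X, (roq a0 b0 h x a : ℝ) * roq a0 b0 h x' a ≤ ((X : ℝ) + mo x * mo x') * ∏ l, ((lc x l).divisors.card : ℝ)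

/-- NC: the pairs without conflict, on average over the constant term (uses CNT, R2) -/
def S_NC : Prop := ∀ (k A B : ℕ), 1 ≤ k → ∀ (a0 b0 : ℤ), 1 ≤ a0 → ∀ h : Fin k → ℕ, ∃ E0 : ℕ, ∀ E : ℕ, ∃ N0 : ℕ, ∀ N : ℕ, N0 ≤ N →
    ∀ z R X T1 T2 : ℕ, Real.log N ^ E0 ≤ z → (z : ℝ) ≤ Real.log N ^ E → 1 ≤ R → R ^ 80 ≤ N → X ≤ N → T1 ≤ T2 → R ^ 16 ≤ T2 - T1 → N ≤ (T2 - T1) ^ 4 →
    ∀ Λ : (Fin k → ℕ) → ℝ, (∀ d ∈ PD (Fin k) z R, |Λ d| ≤ Real.log N ^ B) → (∀ d, Λ d ≠ 0 → ∏ l, d l ≤ R) →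
    ∑ a ∈ Icc 1 X, ∑ x ∈ NCF k z R, |Λ x.1 * Λ x.2| *
      |((TR a0 b0 h T1 T2 z (lc x) a).card : ℝ) - roq a0 b0 h x a * (((T2 : ℝ) - T1) / mo x * Vq a0 b0 h z a)| ≤
      N * ((T2 : ℝ) - T1) / Real.log N ^ A

/-- VAR: the number of classes has the expected value for almost all constant terms (uses R2 and `t_WC : S_WC`) -/
def S_VAR : Prop := ∀ (k A B : ℕ), 1 ≤ k → ∀ (a0 b0 : ℤ), 1 ≤ a0 → ∀ h : Fin k → ℕ, ∃ E0 : ℕ, ∀ E : ℕ, ∃ N0 : ℕ, ∀ N : ℕ, N0 ≤ N →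
    ∀ z R X : ℕ, Real.log N ^ E0 ≤ z → (z : ℝ) ≤ Real.log N ^ E → 1 ≤ R → R ^ 80 ≤ N → X ≤ N →
    ∀ Λ : (Fin k → ℕ) → ℝ, (∀ d ∈ PD (Fin k) z R, |Λ d| ≤ Real.log N ^ B) → (∀ d, Λ d ≠ 0 → ∏ l, d l ≤ R) →
    ∑ a ∈ Icc 1 X, |∑ x ∈ NCF k z R, Λ x.1 * Λ x.2 * (((roq a0 b0 h x a : ℝ) - 1) / mo x)| ≤ N / Real.log N ^ A

open Classical in
/-- CF: one conflict, on average over the constant term -/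
def S_CF : Prop := ∀ (k : ℕ) (a0 b0 : ℤ) (h : Fin k → ℕ) (z R X T1 T2 N : ℕ), 1 ≤ a0 → Function.Injective h → (∀ l, 2 * a0 * (h l + 1) ≤ z) →
    X ≤ N → T1 ≤ T2 → ∀ x ∈ PD (Fin k) z R ×ˢ PD (Fin k) z R, mo x ≤ T2 - T1 → mo x ≤ N →
    ∑ a ∈ Icc 1 X, (((Ioc T1 T2).filter (fun t : ℕ => Hit (cq a0 b0 h t) (lc x) a)).card : ℝ) ≤ 4 * N * ((T2 : ℝ) - T1) / mo x

open Classical in
/-- CFA: all the conflicts (uses CF and `conf_sum`) -/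
def S_CFA : Prop := ∀ (k A B : ℕ), 1 ≤ k → ∀ (a0 b0 : ℤ), 1 ≤ a0 → ∀ h : Fin k → ℕ, Function.Injective h → ∃ E0 : ℕ, ∀ E : ℕ, ∃ N0 : ℕ, ∀ N : ℕ, N0 ≤ N →
    ∀ z R X T1 T2 : ℕ, Real.log N ^ E0 ≤ z → (z : ℝ) ≤ Real.log N ^ E → 1 ≤ R → R ^ 80 ≤ N → X ≤ N → T1 ≤ T2 → R ^ 16 ≤ T2 - T1 →
    ∀ Λ : (Fin k → ℕ) → ℝ, (∀ d ∈ PD (Fin k) z R, |Λ d| ≤ Real.log N ^ B) → (∀ d, Λ d ≠ 0 → ∏ l, d l ≤ R) →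
    ∑ x ∈ CFS k z R, |Λ x.1 * Λ x.2| * ∑ a ∈ Icc 1 X, (((Ioc T1 T2).filter (fun t : ℕ => Hit (cq a0 b0 h t) (lc x) a)).card : ℝ) ≤
      N * ((T2 : ℝ) - T1) / Real.log N ^ A ∧
    ∑ x ∈ CFS k z R, |Λ x.1 * Λ x.2| * (1 / (mo x : ℝ)) ≤ 1 / Real.log N ^ A

/-- MAIN: the main terms (uses NC, VAR, CFA) -/
def S_MAIN : Prop := ∀ (k A B : ℕ), 1 ≤ k → ∀ (a0 b0 : ℤ), 1 ≤ a0 → ∀ h : Fin k → ℕ, Function.Injective h → ∃ E0 : ℕ, ∀ E : ℕ, ∃ N0 : ℕ, ∀ N : ℕ, N0 ≤ N →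
    ∀ z R X T1 T2 : ℕ, Real.log N ^ E0 ≤ z → (z : ℝ) ≤ Real.log N ^ E → 1 ≤ R → R ^ 80 ≤ N → X ≤ N → T1 ≤ T2 → R ^ 16 ≤ T2 - T1 → N ≤ (T2 - T1) ^ 4 →
    ∀ Λ : (Fin k → ℕ) → ℝ, (∀ d ∈ PD (Fin k) z R, |Λ d| ≤ Real.log N ^ B) → (∀ d, Λ d ≠ 0 → ∏ l, d l ≤ R) →
    ∑ a ∈ Icc 1 X, |∑ t ∈ Ioc T1 T2, Gr z (cq a0 b0 h t) a * SS z R Λ (cq a0 b0 h t) a ^ 2 - ((T2 : ℝ) - T1) * Vq a0 b0 h z a * Qf z R Λ| ≤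
      N * ((T2 : ℝ) - T1) / Real.log N ^ A

/-- LOW: the density is not small when there is no fixed prime divisor -/
def S_LOW : Prop := ∀ k E : ℕ, 1 ≤ k → ∃ N0 : ℕ, ∀ N : ℕ, N0 ≤ N → ∀ z : ℕ, (z : ℝ) ≤ Real.log N ^ E → ∀ (a0 b0 : ℤ) (h : Fin k → ℕ),
    (∀ l, ∀ p : ℕ, p.Prime → p ≤ 2 * k → p ∣ h l) → ∀ a : ℕ, (∀ p : ℕ, p.Prime → ∃ t : ℤ, ¬ (p : ℤ) ∣ a + gz a0 b0 t) →
    1 / Real.log N ≤ Vq a0 b0 h z a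

/-- M4: the fourth moment -/
def S_M4q : Prop := ∀ k : ℕ, 1 ≤ k → ∀ (a0 b0 : ℤ) (h : Fin k → ℕ) (z R X N t : ℕ) (Λ : (Fin k → ℕ) → ℝ) (V : ℝ), 0 ≤ V →
    (∀ d ∈ PD (Fin k) z R, |Λ d| ≤ V) → (∀ l, 0 ≤ gz a0 b0 (t + h l) ∧ X + gz a0 b0 (t + h l) ≤ N) →
    ∑ a ∈ Icc 1 X, SS z R Λ (cq a0 b0 h t) a ^ 4 ≤ V ^ 4 * (k * (N * (1 + Real.log N) ^ (2 ^ (4 * k))))

/-! ### the error terms -/

/-- the distance to the nearest integer -/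
noncomputable def nd (x : ℝ) : ℝ := |x - round x|

/-- the minimum of `V` and of the inverse of the distance -/
noncomputable def mn (V : ℕ) (x : ℝ) : ℝ := V / max 1 (V * nd x)

/-- the majorant of the square of a Weyl sum along a progression with difference `D` in an interval of length `T` -/
noncomputable def WD (a0 : ℤ) (T D : ℕ) (α : ℝ) : ℝ :=
  ((T / D + 1 : ℕ) : ℝ) + 2 * ∑ j ∈ Icc 1 (T / D + 1), mn (T / D + 1) (2 * a0 * (D : ℝ) ^ 2 * j * α)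

/-- WY: Weyl differencing -/
def S_WY : Prop := ∀ (a0 b0 : ℤ) (T1 T2 T D τ : ℕ) (α : ℝ), 1 ≤ D → T1 ≤ T2 → T2 - T1 ≤ T →
    ‖∑ t ∈ (Ioc T1 T2).filter (fun t => t % D = τ), ee ((gz a0 b0 t : ℝ) * α)‖ ^ 2 ≤ WD a0 T D α

/-- W1: the sum of the minima -/
def S_W1 : Prop := ∀ (V : ℕ) (L β : ℝ), 1 ≤ V → 1 ≤ L → L ^ 2 ≤ V → (∀ q : ℕ, 1 ≤ q → (q : ℝ) ≤ L → L ^ 2 / (V : ℝ) ^ 2 < nd (q * β)) →
    ∑ j ∈ Icc 1 V, mn V (j * β) ≤ 100 * (V : ℝ) ^ 2 * (1 + Real.log V) / L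

/-- MA: outside the major arcs the Weyl sums are small on average over the moduli (uses W1) -/
def S_MA : Prop := ∀ (a0 : ℤ), 1 ≤ a0 → ∀ A K' : ℕ, ∃ B N0 : ℕ, ∀ N : ℕ, N0 ≤ N → ∀ T : ℕ, (N : ℝ) ≤ (T : ℝ) ^ 2 * Real.log N ^ K' → T ^ 2 ≤ N →
    ∀ α : ℝ, (∀ q : ℕ, 1 ≤ q → (q : ℝ) ≤ Real.log N ^ B → Real.log N ^ B / N < nd (q * α)) →
    ∑ D ∈ QQ N, (D : ℝ) * WD a0 T D α ≤ N / Real.log N ^ A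

/-- PV: Parseval's identity in residue classes (uses WY) -/
def S_PV : Prop := ∀ (a0 b0 c0 : ℤ) (G : ℕ → ℕ) (T1 T2 T D X Y M : ℕ) (Δ : ℕ → ℝ) (P : Finset (ℕ × ℕ)), 1 ≤ D → T1 ≤ T2 → T2 - T1 ≤ T →
    (∀ t ∈ Ioc T1 T2, (G t : ℤ) = gz a0 b0 t + c0) → (∀ t ∈ Ioc T1 T2, X + G t ≤ Y) → P ⊆ range D ×ˢ range D →
    (∀ u, (P.filter (fun y => y.2 = u)).card ≤ M) →
    ∑ y ∈ P, ∑ a ∈ Icc 1 X, (∑ t ∈ (Ioc T1 T2).filter (fun t => t % D = y.1 ∧ (a + G t) % D = y.2), Δ (a + G t)) ^ 2 ≤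
      M * ∫ α in (0 : ℝ)..1, WD a0 T D α * ‖∑ n ∈ Icc 1 Y, ((Δ n : ℝ) : ℂ) * ee (n * α)‖ ^ 2

/-- IN: the mean value (uses MA and `tbv_sup`) -/
def S_IN : Prop := ∀ (a0 : ℤ), 1 ≤ a0 → ∀ A K' : ℕ, ∃ E0 : ℕ, ∀ E : ℕ, ∃ N0 : ℕ, ∀ N : ℕ, N0 ≤ N → ∀ z T Y : ℕ,
    Real.log N ^ E0 ≤ z → (z : ℝ) ≤ Real.log N ^ E → (N : ℝ) ≤ (T : ℝ) ^ 2 * Real.log N ^ K' → T ^ 2 ≤ N → Y ≤ N →
    ∑ D ∈ QQ N, (D : ℝ) * ∫ α in (0 : ℝ)..1, WD a0 T D α * ‖∑ n ∈ Icc 1 Y, ((dl z n : ℝ) : ℂ) * ee (n * α)‖ ^ 2 ≤ (N : ℝ) ^ 2 / Real.log N ^ A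

/-- CL: one system (uses PV) -/
def S_CL : Prop := ∀ (k K : ℕ) (a0 b0 : ℤ) (h : Fin k → ℕ) (i : Fin k) (z R X Y T1 T2 : ℕ), 1 ≤ a0 → Function.Injective h →
    (∀ l, 2 * a0 * (h l + 1) ≤ K) → k ≤ K → K ≤ z → T1 ≤ T2 →
    (∀ t ∈ Ioc T1 T2, ∀ l, (z : ℤ) ≤ gz a0 b0 (t + h l) ∧ X + gz a0 b0 (t + h l) ≤ Y) →
    ∀ S ⊆ pz z, ∀ x ∈ NCF k z R, lc x i = 1 → (∏ p ∈ S, p) * mo x ≤ X →
    ∑ a ∈ Icc 1 X, |∑ t ∈ TT a0 b0 h T1 T2 (lc x) S a, dl z (va a0 b0 a (t + h i))| ≤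
      (K : ℝ) ^ S.card * (√(2 * X) *
        √(∫ α in (0 : ℝ)..1, WD a0 (T2 - T1) ((∏ p ∈ S, p) * mo x) α * ‖∑ n ∈ Icc 1 Y, ((dl z n : ℝ) : ℂ) * ee (n * α)‖ ^ 2))

/-- BD: all the systems (uses CL, IN and `fibre_bound`) -/
def S_BD : Prop := ∀ (k A B K' : ℕ), 1 ≤ k → ∀ (a0 b0 : ℤ), 1 ≤ a0 → ∀ h : Fin k → ℕ, Function.Injective h → ∃ E0 : ℕ, ∀ E : ℕ, ∃ N0 : ℕ, ∀ N : ℕ, N0 ≤ N →
    ∀ z R X T1 T2 r : ℕ, Real.log N ^ E0 ≤ z → (z : ℝ) ≤ Real.log N ^ E → 1 ≤ R → R ^ 80 ≤ N → (N : ℝ) ≤ X * Real.log N ^ K' → T1 ≤ T2 →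
    (N : ℝ) ≤ ((T2 : ℝ) - T1) ^ 2 * Real.log N ^ K' → (T2 - T1) ^ 2 ≤ N → ((z + 1) ^ r) ^ 40 ≤ N →
    (∀ t ∈ Ioc T1 T2, ∀ l, (z : ℤ) ≤ gz a0 b0 (t + h l) ∧ X + gz a0 b0 (t + h l) ≤ N) →
    ∀ (i : Fin k) (Λ : (Fin k → ℕ) → ℝ), (∀ d ∈ PD (Fin k) z R, |Λ d| ≤ Real.log N ^ B) → (∀ d, Λ d ≠ 0 → ∏ l, d l ≤ R ∧ d i = 1) →
    ∑ x ∈ NCF k z R, |Λ x.1 * Λ x.2| * ∑ S ∈ (pz z).powerset.filter (fun S => S.card < r),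
      ∑ a ∈ Icc 1 X, |∑ t ∈ TT a0 b0 h T1 T2 (lc x) S a, dl z (va a0 b0 a (t + h i))| ≤ N * ((T2 : ℝ) - T1) / Real.log N ^ A

/-- TRU: the truncation (uses `count_raw`, `choice`) -/
def S_TRU : Prop := ∀ (k A B : ℕ), 1 ≤ k → ∀ (a0 b0 : ℤ) (h : Fin k → ℕ), ∃ E0 : ℕ, ∀ E : ℕ, ∃ N0 : ℕ, ∀ N : ℕ, N0 ≤ N →
    ∀ z R X T1 T2 : ℕ, Real.log N ^ E0 ≤ z → (z : ℝ) ≤ Real.log N ^ E → 1 ≤ R → R ^ 80 ≤ N → X ≤ N → T1 ≤ T2 →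
    ∃ r : ℕ, 1 ≤ r ∧ ((z + 1) ^ r) ^ 40 ≤ N ∧ ∀ Λ : (Fin k → ℕ) → ℝ, (∀ d ∈ PD (Fin k) z R, |Λ d| ≤ Real.log N ^ B) → (∀ d, Λ d ≠ 0 → ∏ l, d l ≤ R) →
    ∑ x ∈ NCF k z R, |Λ x.1 * Λ x.2| * ∑ S ∈ (pz z).powersetCard r, ∑ a ∈ Icc 1 X, ((TT a0 b0 h T1 T2 (lc x) S a).card : ℝ) ≤
      N * ((T2 : ℝ) - T1) / Real.log N ^ A

/-- ERR: the prime part (uses BD, TRU, CFA) -/
def S_ERR : Prop := ∀ (k A B K' : ℕ), 1 ≤ k → ∀ (a0 b0 : ℤ), 1 ≤ a0 → ∀ h : Fin k → ℕ, Function.Injective h → ∃ E0 : ℕ, ∀ E : ℕ, ∃ N0 : ℕ, ∀ N : ℕ, N0 ≤ N →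
    ∀ z R X T1 T2 : ℕ, Real.log N ^ E0 ≤ z → (z : ℝ) ≤ Real.log N ^ E → 1 ≤ R → R ^ 80 ≤ N → R ^ 16 ≤ T2 - T1 → (N : ℝ) ≤ X * Real.log N ^ K' → T1 ≤ T2 →
    (N : ℝ) ≤ ((T2 : ℝ) - T1) ^ 2 * Real.log N ^ K' → (T2 - T1) ^ 2 ≤ N →
    (∀ t ∈ Ioc T1 T2, ∀ l, (z : ℤ) ≤ gz a0 b0 (t + h l) ∧ X + gz a0 b0 (t + h l) ≤ N) →
    ∀ (i : Fin k) (Λ : (Fin k → ℕ) → ℝ), (∀ d ∈ PD (Fin k) z R, |Λ d| ≤ Real.log N ^ B) → (∀ d, Λ d ≠ 0 → ∏ l, d l ≤ R ∧ d i = 1) →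
    ∑ a ∈ Icc 1 X, |∑ t ∈ Ioc T1 T2, Gr z (cq a0 b0 h t) a * SS z R Λ (cq a0 b0 h t) a ^ 2 * dl z (va a0 b0 a (t + h i))| ≤
      N * ((T2 : ℝ) - T1) / Real.log N ^ A

/-! ### the assembly -/

/-- the number of primes among the values at `t + h l` -/
def npq {k : ℕ} (a0 b0 : ℤ) (h : Fin k → ℕ) (a t : ℕ) : ℕ := (univ.filter (fun l => (va a0 b0 a (t + h l)).Prime)).card

open Classical in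
/-- CORE (uses MAIN, ERR, LOW, M4q, `weights_spec`) -/
def S_CORE : Prop := ∀ m : ℕ, 1 ≤ m → ∃ k : ℕ, 1 ≤ k ∧ ∀ h : Fin k → ℕ, Function.Injective h → (∀ l, ∀ p : ℕ, p.Prime → p ≤ 2 * k → p ∣ h l) →
    ∀ (a0 b0 : ℤ), 1 ≤ a0 → ∀ A K' : ℕ, ∃ D N0 : ℕ, ∀ N : ℕ, N0 ≤ N → ∀ X T1 T2 : ℕ, (N : ℝ) ≤ X * Real.log N ^ K' → T1 ≤ T2 →
    (N : ℝ) ≤ ((T2 : ℝ) - T1) ^ 2 * Real.log N ^ K' → (T2 - T1) ^ 2 ≤ N →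
    (∀ t ∈ Ioc T1 T2, ∀ l, √(N : ℝ) ≤ (gz a0 b0 (t + h l) : ℝ) * Real.log N ^ K' ∧ X + gz a0 b0 (t + h l) ≤ N) →
    (((Icc 1 X).filter (fun a : ℕ => (∀ p : ℕ, p.Prime → ∃ t : ℤ, ¬ (p : ℤ) ∣ a + gz a0 b0 t) ∧
      (((Ioc T1 T2).filter (fun t => m ≤ npq a0 b0 h a t)).card : ℝ) < ((T2 : ℝ) - T1) / Real.log N ^ D)).card : ℝ) ≤ N / Real.log N ^ A

end Pool.Agent.L0h42.CL
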