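import Mathlib
import Pool.Agent.L0h42.CL.Stm

/-! The pointwise argument: a constant term for which the main terms have the expected size and the prime part is small. -/

set_option autoImplicit false
set_option linter.unusedSectionVars false
set_option linter.unusedVariables false

namespace Pool.Agent.L0h42.CL
open Finset
open Pool.Agent.L0h42.TB
open Pool.Agent.H373R2.T7
open Pool.Agent.H807R2.Dav

section pw
variable {k : ℕ}

/-- the weight -/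
noncomputable def Fq (z R : ℕ) (a0 b0 : ℤ) (h : Fin k → ℕ) (Λ : (Fin k → ℕ) → ℝ) (a t : ℕ) : ℝ :=
  Gr z (cq a0 b0 h t) a * SS z R Λ (cq a0 b0 h t) a ^ 2

lemma Fq_nonneg (z R : ℕ) (a0 b0 : ℤ) (h : Fin k → ℕ) (Λ : (Fin k → ℕ) → ℝ) (a t : ℕ) : 0 ≤ Fq z R a0 b0 h Λ a t :=
  mul_nonneg (Gr_nonneg _ _ _) (sq_nonneg _)

lemma Fq_le (z R : ℕ) (a0 b0 : ℤ) (h : Fin k → ℕ) (Λ : (Fin k → ℕ) → ℝ) (a t : ℕ) :
    Fq z R a0 b0 h Λ a t ≤ SS z R Λ (cq a0 b0 h t) a ^ 2 := by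
  unfold Fq
  calc _ ≤ 1 * SS z R Λ (cq a0 b0 h t) a ^ 2 := mul_le_mul_of_nonneg_right (Gr_le_one _ _ _) (sq_nonneg _)
    _ = _ := one_mul _

lemma dvd_va (a0 b0 : ℤ) (h : Fin k → ℕ) (a t d : ℕ) (l : Fin k) (hg : 0 ≤ gz a0 b0 (t + h l)) :
    (d : ℤ) ∣ (a : ℤ) - cq a0 b0 h t l ↔ d ∣ va a0 b0 a (t + h l) := by
  unfold cq va
  have e1 : ((t + h l : ℕ) : ℤ) = (t : ℤ) + h l := by push_cast; ring
  rw [e1, sub_neg_eq_add]
  have h0 : 0 ≤ (a : ℤ) + gz a0 b0 (t + h l) := by positivity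
  conv_lhs => rw [← Int.toNat_of_nonneg h0]
  exact Int.natCast_dvd_natCast

lemma Fq_pl (z R : ℕ) (a0 b0 : ℤ) (h : Fin k → ℕ) (Λ : (Fin k → ℕ) → ℝ) (a t : ℕ) (i : Fin k)
    (hg : 0 ≤ gz a0 b0 (t + h i)) (haR : R < va a0 b0 a (t + h i)) :
    Fq z R a0 b0 h Λ a t * pl (va a0 b0 a (t + h i)) = Fq z R a0 b0 h (Lr Λ i) a t * pl (va a0 b0 a (t + h i)) := by
  classical
  by_cases hp : (va a0 b0 a (t + h i)).Prime
  · have h1 : SS z R Λ (cq a0 b0 h t) a = SS z R (Lr Λ i) (cq a0 b0 h t) a := by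
      unfold SS
      apply sum_congr rfl
      intro d hd
      by_cases hh : Hit (cq a0 b0 h t) d a
      · rw [if_pos hh]
        have h2 : d i ∣ va a0 b0 a (t + h i) := (dvd_va a0 b0 h a t _ i hg).1 (hh i)
        have h3 : d i ≤ R := (mem_RR.1 (mem_PD.1 hd i)).1.2
        have h4 : d i = 1 := by
          rcases (Nat.dvd_prime hp).1 h2 with h5 | h5
          · exact h5
          · omega
        unfold Lr
        rw [if_pos h4]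
      · rw [if_neg hh, mul_zero, mul_zero]
    unfold Fq
    rw [h1]
  · unfold pl
    rw [if_neg hp, mul_zero, mul_zero]

lemma Fq_lamz (z R : ℕ) (a0 b0 : ℤ) (h : Fin k → ℕ) (Λ : (Fin k → ℕ) → ℝ) (a t : ℕ) (i : Fin k) (hg : 0 ≤ gz a0 b0 (t + h i)) :
    Fq z R a0 b0 h Λ a t * lamz z (va a0 b0 a (t + h i)) = (Vz z)⁻¹ * Fq z R a0 b0 h Λ a t := by
  classical
  unfold Fq Gr
  by_cases hr : Rgh z (cq a0 b0 h t) a
  · have h1 : ∀ p ∈ pz z, ¬ p ∣ va a0 b0 a (t + h i) := by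
      intro p hp hd
      exact hr p hp ⟨i, (dvd_va a0 b0 h a t p i hg).2 hd⟩
    unfold lamz
    rw [if_pos h1]
    ring
  · rw [if_neg hr]; ring

lemma Fq_eq (z R : ℕ) (a0 b0 : ℤ) (h : Fin k → ℕ) (Λ : (Fin k → ℕ) → ℝ) (a t : ℕ) (i : Fin k)
    (hg : 0 ≤ gz a0 b0 (t + h i)) (haR : R < va a0 b0 a (t + h i)) :
    Fq z R a0 b0 h Λ a t * pl (va a0 b0 a (t + h i)) =
      Fq z R a0 b0 h (Lr Λ i) a t * dl z (va a0 b0 a (t + h i)) + (Vz z)⁻¹ * Fq z R a0 b0 h (Lr Λ i) a t := by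
  rw [Fq_pl z R a0 b0 h Λ a t i hg haR, ← Fq_lamz z R a0 b0 h (Lr Λ i) a t i hg]
  unfold dl
  ring

lemma npq_le (a0 b0 : ℤ) (h : Fin k → ℕ) (a t : ℕ) : npq a0 b0 h a t ≤ k := by
  unfold npq
  exact (card_le_univ _).trans (by simp)

lemma sum_pl_q (a0 b0 : ℤ) (h : Fin k → ℕ) (a t N : ℕ) (hN : 1 ≤ N) (ha : ∀ l, va a0 b0 a (t + h l) ≤ N) :
    ∑ l, pl (va a0 b0 a (t + h l)) ≤ npq a0 b0 h a t * Real.log N := by
  unfold npq
  have h1 : ∀ l ∈ (univ : Finset (Fin k)), pl (va a0 b0 a (t + h l)) ≤ if (va a0 b0 a (t + h l)).Prime then Real.log N else 0 := by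
    intro l _
    split_ifs with hp
    · exact pl_le_log (ha l) hN
    · unfold pl; rw [if_neg hp]
  refine (sum_le_sum h1).trans (le_of_eq ?_)
  rw [← sum_filter, sum_const, nsmul_eq_mul]

open Classical in
/-- **the pointwise argument.** -/
theorem point_q (m sm D N z R T1 T2 a : ℕ) (a0 b0 : ℤ) (h : Fin k → ℕ) (Λ : (Fin k → ℕ) → ℝ) (L T V : ℝ) (hm : 1 ≤ m)
    (hLd : L = Real.log N) (hL1 : 1 ≤ L) (hN : 1 ≤ N) (hT : T = (T2 : ℝ) - T1) (hT0 : 0 < T) (hVlow : 1 / L ≤ V)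
    (hpt : ∀ t ∈ Ioc T1 T2, ∀ l, 0 ≤ gz a0 b0 (t + h l) ∧ R < va a0 b0 a (t + h l) ∧ va a0 b0 a (t + h l) ≤ N)
    (hDd : D = sm + 5) (hkL : (k : ℝ) ^ 2 < L) (hv1 : 1 ≤ (Vz z)⁻¹) (w3 : 1 ≤ Qf z R Λ)
    (hratio : 4 * m * L * Qf z R Λ ≤ (Vz z)⁻¹ * ∑ i, Qf z R (Lr Λ i))
    (c1 : |∑ t ∈ Ioc T1 T2, Fq z R a0 b0 h Λ a t - T * V * Qf z R Λ| ≤ T * V * Qf z R Λ / 2)
    (c3 : ∀ i, |∑ t ∈ Ioc T1 T2, Fq z R a0 b0 h (Lr Λ i) a t - T * V * Qf z R (Lr Λ i)| ≤ T * V * Qf z R (Lr Λ i) / 2)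
    (c2 : ∑ i : Fin k, |∑ t ∈ Ioc T1 T2, Fq z R a0 b0 h (Lr Λ i) a t * dl z (va a0 b0 a (t + h i))| < T * V)
    (c4 : ∑ t ∈ Ioc T1 T2, Fq z R a0 b0 h Λ a t ^ 2 < T * L ^ sm)
    (hbad : (((Ioc T1 T2).filter (fun t => m ≤ npq a0 b0 h a t)).card : ℝ) < T / L ^ D) : False := by
  have hL0 : 0 < L := by linarith
  have hmr : (1 : ℝ) ≤ m := by exact_mod_cast hm
  have hV0 : 0 < V := lt_of_lt_of_le (by positivity) hVlow
  obtain ⟨μ, hμ⟩ : ∃ μ, μ = T * V := ⟨_, rfl⟩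
  have hμ0 : 0 < μ := by rw [hμ]; positivity
  obtain ⟨I, hI⟩ : ∃ I, I = Ioc T1 T2 := ⟨_, rfl⟩
  obtain ⟨F, hF⟩ : ∃ F : ((Fin k → ℕ) → ℝ) → ℕ → ℝ, F = fun Λ t => Fq z R a0 b0 h Λ a t := ⟨_, rfl⟩
  have hF' : ∀ Λ t, Fq z R a0 b0 h Λ a t = F Λ t := fun Λ t => by rw [hF]
  rw [← hμ, ← hI] at c1
  rw [← hμ, ← hI] at c2
  simp only [← hμ, ← hI] at c3
  rw [← hI] at c4 hbad hpt
  simp only [hF'] at c1 c2 c3 c4
  have F0 : ∀ t, 0 ≤ F Λ t := fun t => by rw [← hF']; exact Fq_nonneg _ _ _ _ _ _ _ _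
  obtain ⟨Er, hEr⟩ : ∃ Er, Er = ∑ i : Fin k, |∑ t ∈ I, F (Lr Λ i) t * dl z (va a0 b0 a (t + h i))| := ⟨_, rfl⟩
  rw [← hEr] at c2
  obtain ⟨G, hG⟩ : ∃ G, G = I.filter (fun t => m ≤ npq a0 b0 h a t) := ⟨_, rfl⟩
  rw [← hG] at hbad
  obtain ⟨Sg, hSg⟩ : ∃ Sg, Sg = ∑ t ∈ G, F Λ t := ⟨_, rfl⟩
  have hSg0 : 0 ≤ Sg := by rw [hSg]; exact sum_nonneg fun t _ => F0 t
  have p1 : ∑ t ∈ I, F Λ t * (∑ i, pl (va a0 b0 a (t + h i)) - (m - 1) * L) ≤ k * L * Sg := by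
    have e0 : k * L * Sg = ∑ t ∈ I, (if m ≤ npq a0 b0 h a t then k * L * F Λ t else 0) := by
      rw [← sum_filter, ← hG, ← mul_sum, ← hSg]
    rw [e0]
    apply sum_le_sum
    intro t ht
    have hj := hpt t ht
    have q1 := sum_pl_q a0 b0 h a t N hN (fun l => (hj l).2.2)
    rw [← hLd] at q1
    have f0 := F0 t
    have hm1 : (0 : ℝ) ≤ (m - 1) * L := mul_nonneg (by linarith) hL0.le
    split_ifs with hc
    · have q2 : (npq a0 b0 h a t : ℝ) ≤ k := by exact_mod_cast npq_le a0 b0 h a t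
      have q3 := mul_le_mul_of_nonneg_right q2 hL0.le
      calc _ ≤ F Λ t * (k * L) := mul_le_mul_of_nonneg_left (by linarith) f0
        _ = _ := by ring
    · apply mul_nonpos_of_nonneg_of_nonpos f0
      have q3 : (npq a0 b0 h a t : ℝ) ≤ m - 1 := by
        have : npq a0 b0 h a t + 1 ≤ m := by omega
        have : ((npq a0 b0 h a t + 1 : ℕ) : ℝ) ≤ m := by exact_mod_cast this
        push_cast at this
        linarith
      have q4 := mul_le_mul_of_nonneg_right q3 hL0.le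
      linarith
  have p0 : Sg ^ 2 ≤ (T / L ^ D) * (T * L ^ sm) := by
    have h1 := sq_sum_le_card_mul_sum_sq (s := G) (f := fun t => F Λ t)
    rw [← hSg] at h1
    refine h1.trans ?_
    apply mul_le_mul hbad.le _ (sum_nonneg fun _ _ => by positivity) (by positivity)
    refine le_trans ?_ c4.le
    rw [hG]
    exact sum_le_sum_of_subset_of_nonneg (filter_subset _ _) fun _ _ _ => by positivity
  have p2 : ∑ t ∈ I, F Λ t * (∑ i, pl (va a0 b0 a (t + h i)) - (m - 1) * L) =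
      ∑ i : Fin k, (∑ t ∈ I, F (Lr Λ i) t * dl z (va a0 b0 a (t + h i)) + (Vz z)⁻¹ * ∑ t ∈ I, F (Lr Λ i) t) -
        (m - 1) * L * ∑ t ∈ I, F Λ t := by
    have q1 : ∀ t ∈ I, F Λ t * (∑ i, pl (va a0 b0 a (t + h i)) - (m - 1) * L) =
        ∑ i : Fin k, (F (Lr Λ i) t * dl z (va a0 b0 a (t + h i)) + (Vz z)⁻¹ * F (Lr Λ i) t) - (m - 1) * L * F Λ t := by
      intro t ht
      have hj := hpt t ht
      rw [mul_sub, mul_sum]
      congr 1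
      · apply sum_congr rfl
        intro i _
        have := Fq_eq z R a0 b0 h Λ a t i (hj i).1 (hj i).2.1
        rw [hF', hF'] at this
        exact this
      · ring
    rw [sum_congr rfl q1, sum_sub_distrib, sum_comm, ← mul_sum]
    congr 1
    apply sum_congr rfl
    intro i _
    rw [sum_add_distrib, ← mul_sum]
  have hVi : 0 < (Vz z)⁻¹ := by linarith
  have p3 : ∑ i : Fin k, (-|∑ t ∈ I, F (Lr Λ i) t * dl z (va a0 b0 a (t + h i))| + (Vz z)⁻¹ * (μ * Qf z R (Lr Λ i) / 2)) ≤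
      ∑ i : Fin k, (∑ t ∈ I, F (Lr Λ i) t * dl z (va a0 b0 a (t + h i)) + (Vz z)⁻¹ * ∑ t ∈ I, F (Lr Λ i) t) := by
    apply sum_le_sum
    intro i _
    apply add_le_add
    · exact neg_abs_le _
    · apply mul_le_mul_of_nonneg_left _ hVi.le
      have := (abs_le.1 (c3 i)).1
      linarith
  have p4 : ∑ i : Fin k, (-|∑ t ∈ I, F (Lr Λ i) t * dl z (va a0 b0 a (t + h i))| + (Vz z)⁻¹ * (μ * Qf z R (Lr Λ i) / 2)) =
      -Er + μ / 2 * ((Vz z)⁻¹ * ∑ i, Qf z R (Lr Λ i)) := by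
    rw [sum_add_distrib, sum_neg_distrib, hEr, mul_sum, mul_sum]
    congr 1
    apply sum_congr rfl
    intro i _
    ring
  have p5 : ∑ t ∈ I, F Λ t ≤ 3 / 2 * (μ * Qf z R Λ) := by
    have := (abs_le.1 c1).2
    linarith
  have p6 := mul_le_mul_of_nonneg_left hratio (show 0 ≤ μ / 2 by positivity)
  have hm1 : (0 : ℝ) ≤ (m - 1) * L := mul_nonneg (by linarith) hL0.le
  have p7 := mul_le_mul_of_nonneg_left p5 hm1
  have hQL : 1 ≤ L * Qf z R Λ := one_le_mul_of_one_le_of_one_le hL1 w3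
  have p8 : 2 * μ ≤ μ / 2 * (4 * m * L * Qf z R Λ) - (m - 1) * L * (3 / 2 * (μ * Qf z R Λ)) := by
    have e1 : μ / 2 * (4 * m * L * Qf z R Λ) - (m - 1) * L * (3 / 2 * (μ * Qf z R Λ)) = 2 * μ * ((m / 4 + 3 / 4) * (L * Qf z R Λ)) := by ring
    rw [e1]
    apply le_mul_of_one_le_right (by linarith)
    exact one_le_mul_of_one_le_of_one_le (by linarith only [hmr]) hQL
  rw [p2] at p1
  have p9 : μ ≤ k * L * Sg := by linarith
  have p10 : μ ^ 2 ≤ (k * L * Sg) ^ 2 := pow_le_pow_left₀ hμ0.le p9 2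
  have p11 : (k * L * Sg) ^ 2 ≤ (k * L) ^ 2 * ((T / L ^ D) * (T * L ^ sm)) := by
    calc (k * L * Sg) ^ 2 = (k * L) ^ 2 * Sg ^ 2 := by ring
      _ ≤ _ := mul_le_mul_of_nonneg_left p0 (by positivity)
  have p12 : T ^ 2 * (1 / L) ^ 2 ≤ μ ^ 2 := by
    rw [hμ, mul_pow]
    gcongr
  have p13 := p12.trans (p10.trans p11)
  have e1 : (k * L) ^ 2 * ((T / L ^ D) * (T * L ^ sm)) = (k ^ 2 / L) * (T ^ 2 * (1 / L) ^ 2) := by
    have e2 : L ^ D = L ^ sm * L ^ 5 := by rw [hDd, pow_add]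
    rw [e2]
    field_simp
  rw [e1] at p13
  have hpos : 0 < T ^ 2 * (1 / L) ^ 2 := by positivity
  have p14 : (k : ℝ) ^ 2 / L < 1 := by
    rw [div_lt_one hL0]
    linarith
  have p15 := mul_lt_mul_of_pos_right p14 hpos
  linarith

end pw

end Pool.Agent.L0h42.CL
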