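import Mathlib
import Pool.Agent.L0h42.CL.K1
import Pool.Agent.L0h42.EG.E9

/-! The core: for almost all constant terms many arguments with many primes nearby. -/

set_option autoImplicit false
set_option linter.unusedSectionVars false
set_option linter.unusedVariables false

namespace Pool.Agent.L0h42.CL
open Finset
open Pool.Agent.L0h42.TB
open Pool.Agent.L0h42.EG
open Pool.Agent.H373R2.T7
open Pool.Agent.H807R2.Dav

/-- the density is not small when the product has no fixed prime divisor -/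
def S_LOW2 : Prop := ∀ k E : ℕ, 1 ≤ k → ∃ N0 : ℕ, ∀ N : ℕ, N0 ≤ N → ∀ z : ℕ, (z : ℝ) ≤ Real.log N ^ E → ∀ (a0 b0 : ℤ) (h : Fin k → ℕ),
    ∀ a : ℕ, (∀ p : ℕ, p.Prime → ∃ t : ℤ, ∀ l, ¬ (p : ℤ) ∣ a + gz a0 b0 (t + h l)) →
    1 / Real.log N ≤ Vq a0 b0 h z a

open Classical in
/-- the core, for all tuples -/
def S_CORE2 : Prop := ∀ m : ℕ, 1 ≤ m → ∃ k : ℕ, 1 ≤ k ∧ ∀ h : Fin k → ℕ, Function.Injective h →
    ∀ (a0 b0 : ℤ), 1 ≤ a0 → ∀ A K' : ℕ, ∃ D N0 : ℕ, ∀ N : ℕ, N0 ≤ N → ∀ X T1 T2 : ℕ, (N : ℝ) ≤ X * Real.log N ^ K' → T1 ≤ T2 →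
    (N : ℝ) ≤ ((T2 : ℝ) - T1) ^ 2 * Real.log N ^ K' → (T2 - T1) ^ 2 ≤ N →
    (∀ t ∈ Ioc T1 T2, ∀ l, √(N : ℝ) ≤ (gz a0 b0 (t + h l) : ℝ) * Real.log N ^ K' ∧ X + gz a0 b0 (t + h l) ≤ N) →
    (((Icc 1 X).filter (fun a : ℕ => (∀ p : ℕ, p.Prime → ∃ t : ℤ, ∀ l, ¬ (p : ℤ) ∣ a + gz a0 b0 (t + h l)) ∧
      (((Ioc T1 T2).filter (fun t => m ≤ npq a0 b0 h a t)).card : ℝ) < ((T2 : ℝ) - T1) / Real.log N ^ D)).card : ℝ) ≤ N / Real.log N ^ A

set_option maxHeartbeats 4000000 in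
open Classical in
/-- **the core.** -/
theorem core (hMN : S_MAIN) (hER : S_ERR) (hLW : S_LOW2) (hM4 : S_M4q) : S_CORE2 := by
  intro m hm
  obtain ⟨C, hC1, hC⟩ := mertens_up
  obtain ⟨J, hJ⟩ : ∃ J, J = 288 * C ^ 2 * (320 * (2 * m)) := ⟨_, rfl⟩
  obtain ⟨k, hk2⟩ : ∃ k, k = 2 ^ J := ⟨_, rfl⟩
  obtain ⟨W, hW⟩ : ∃ W, W = k + 8 * k * C * (J + 1) := ⟨_, rfl⟩
  have hk : 1 ≤ k := by rw [hk2]; exact Nat.one_le_two_pow
  have hW1 : 1 ≤ W := by omega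
  refine ⟨k, hk, fun h hinj a0 b0 ha0 A K' => ?_⟩
  obtain ⟨Bw, hBw⟩ : ∃ Bw, Bw = 3 * k := ⟨_, rfl⟩
  have hkr : (1 : ℝ) ≤ k := by exact_mod_cast hk
  obtain ⟨sm0, hsm0⟩ : ∃ sm0, sm0 = 4 * Bw + 1 + 2 * 2 ^ (4 * k) := ⟨_, rfl⟩
  obtain ⟨sm, hsm⟩ : ∃ sm, sm = sm0 + A + 1 := ⟨_, rfl⟩
  obtain ⟨D, hDd⟩ : ∃ D, D = sm + 5 := ⟨_, rfl⟩
  obtain ⟨e0, hE0⟩ := hMN k (A + 2) Bw hk a0 b0 ha0 h hinj
  obtain ⟨e1, hE1⟩ := hER k (A + 2) Bw K' hk a0 b0 ha0 h hinj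
  obtain ⟨E0, hE0d⟩ : ∃ E0, E0 = max e0 e1 + 1 := ⟨_, rfl⟩
  obtain ⟨m0, h0⟩ := hE0 (E0 + 1)
  obtain ⟨m1, h1⟩ := hE1 (E0 + 1)
  obtain ⟨m2, h2⟩ := Vz_inv_small (E0 + 1)
  obtain ⟨m3, h3⟩ := ev_log' ((E0 + 1) * (W * 80)) 1
  obtain ⟨m4, h4⟩ := ev_L' (max (2 * C ^ 2 + 8 : ℝ) (k ^ 2 + 3 * k + 4 : ℝ))
  obtain ⟨m5, h5⟩ := ev_log' (E0 + 1 + K') 1
  obtain ⟨m6, h6⟩ := hLW k (E0 + 1) hk
  obtain ⟨m7, h7⟩ := ev_log' (4 * K') 1
  obtain ⟨m8, h8⟩ := ev_log' (2 * K') 1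
  refine ⟨D, max (max (max m0 m1) m2) (max m3 (max m4 (max m5 (max m6 (max 16 (max m8 m7)))))), ?_⟩
  intro N hN X T1 T2 hNX hT12 hNT hTN hgz
  have n0 : m0 ≤ N := le_trans (le_trans (le_trans (le_max_left _ _) (le_max_left _ _)) (le_max_left _ _)) hN
  have n1 : m1 ≤ N := le_trans (le_trans (le_trans (le_max_right _ _) (le_max_left _ _)) (le_max_left _ _)) hN
  have n2 : m2 ≤ N := le_trans (le_trans (le_max_right _ _) (le_max_left _ _)) hN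
  have n3 : m3 ≤ N := le_trans (le_trans (le_max_left _ _) (le_max_right _ _)) hN
  have nn := le_trans (le_max_right m3 _) (le_trans (le_max_right _ _) hN)
  have n4 : m4 ≤ N := le_trans (le_max_left _ _) nn
  have n5 : m5 ≤ N := le_trans (le_trans (le_max_left _ _) (le_max_right _ _)) nn
  have nn' := le_trans (le_max_right m5 _) (le_trans (le_max_right _ _) nn)
  have n6 : m6 ≤ N := le_trans (le_max_left _ _) nn'
  have nn2 := le_trans (le_max_right m6 _) nn'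
  have hN16 : 16 ≤ N := le_trans (le_max_left _ _) nn2
  have nn3 := le_trans (le_max_right 16 _) nn2
  have n8 : m8 ≤ N := le_trans (le_max_left _ _) nn3
  have n7 : m7 ≤ N := le_trans (le_max_right _ _) nn3
  have hN1 : 1 ≤ N := by omega
  have hN0 : (0 : ℝ) < N := by exact_mod_cast hN1
  have b3 := h3 N n3
  have b4 := h4 N n4
  have b5 := h5 N n5
  have b7 := h7 N n7
  have b8 := h8 N n8
  have hMM := h0 N n0
  have hEE := h1 N n1
  have hVz := h2 N n2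
  have hLL := h6 N n6
  set L := Real.log N with hL
  have l1 : (2 * C ^ 2 + 8 : ℝ) ≤ L := le_trans (le_max_left _ _) b4
  have l4 : (k ^ 2 + 3 * k + 4 : ℝ) ≤ L := le_trans (le_max_right _ _) b4
  have hmr : (1 : ℝ) ≤ m := by exact_mod_cast hm
  have hCr : (1 : ℝ) ≤ C := by exact_mod_cast hC1
  have hL8 : 8 ≤ L := by
    have hC2 := sq_nonneg (C : ℝ)
    linarith only [hC2, l1]
  have hL1 : 1 ≤ L := by linarith
  have hL0 : 0 < L := by linarith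
  -- the parameter `z`
  obtain ⟨z, hz⟩ : ∃ z, z = ⌈L ^ E0⌉₊ := ⟨_, rfl⟩
  have hz1 : L ^ E0 ≤ z := by rw [hz]; exact Nat.le_ceil _
  have hz1' : L ≤ z := (le_self_pow₀ hL1 (by omega)).trans hz1
  have hz2 : (z : ℝ) + 1 ≤ L ^ (E0 + 1) := by
    have g1 := (Nat.ceil_lt_add_one (show 0 ≤ L ^ E0 by positivity)).le
    rw [← hz] at g1
    have g2 : 1 ≤ L ^ E0 := one_le_pow₀ hL1
    rw [pow_succ]
    exact aux_z g1 g2 hL8
  have hz2' : (z : ℝ) ≤ L ^ (E0 + 1) := by linarith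
  have hz8 : 8 ≤ z := by
    have : (8 : ℝ) ≤ z := by linarith
    exact_mod_cast this
  have hze0 : L ^ e0 ≤ z := (pow_le_pow_right₀ hL1 (by have := le_max_left e0 e1; omega)).trans hz1
  have hze1 : L ^ e1 ≤ z := (pow_le_pow_right₀ hL1 (by have := le_max_right e0 e1; omega)).trans hz1
  -- the parameters `x` and `R`
  obtain ⟨x, hx1, hx2, hx3⟩ := root_exists (W * 80) N (by
    have : 0 < W * 80 := by positivity
    omega) (by omega)
  have hsq : √(N : ℝ) ≤ N := aux_sqrt (by exact_mod_cast (show 1 ≤ N by omega))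
  have hzx : z ≤ x := by
    by_contra hcon
    have g1 : (x + 1) ^ (W * 80) ≤ (z + 1) ^ (W * 80) := Nat.pow_le_pow_left (by omega) _
    have g2 : ((z : ℝ) + 1) ^ (W * 80) ≤ N := by
      calc ((z : ℝ) + 1) ^ (W * 80) ≤ (L ^ (E0 + 1)) ^ (W * 80) := pow_le_pow_left₀ (by positivity) hz2 _
        _ = 1 * L ^ ((E0 + 1) * (W * 80)) := by rw [one_mul, ← pow_mul]
        _ ≤ √N := b3
        _ ≤ N := hsq
    have g3 : (z + 1) ^ (W * 80) ≤ N := by exact_mod_cast g2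
    omega
  have hx3' : 3 ≤ x := by omega
  obtain ⟨R, hRd⟩ : ∃ R, R = x ^ W := ⟨_, rfl⟩
  have hR80 : R ^ 80 ≤ N := by rw [hRd, ← pow_mul]; exact hx2
  have hxR : x ≤ R := by rw [hRd]; exact Nat.le_self_pow (by omega) x
  have hR1 : 1 ≤ R := by omega
  have hR3 : 3 ≤ R := by omega
  have hRr : (1 : ℝ) ≤ R := by exact_mod_cast hR1
  obtain ⟨Λ, w1, w2, w3, w4, w5⟩ := weights_spec C J z R x k W hC1 hC hx3' hzx hk2 hW (by rw [hRd]) (by
    rw [hRd]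
    exact Nat.pow_lt_pow_left (Nat.lt_succ_self x) (by omega))
  have hlR : Real.log R ≤ L := by
    apply Real.log_le_log (by linarith)
    exact_mod_cast (Nat.le_self_pow (by norm_num : (80:ℕ) ≠ 0) R).trans hR80
  have hlR0 : 0 ≤ Real.log R := Real.log_nonneg hRr
  have hΛB : ∀ d ∈ PD (Fin k) z R, |Λ d| ≤ L ^ Bw := by
    intro d hd
    refine (w1 d hd).trans ?_
    rw [hBw, pow_mul]
    have hVR0 : 0 ≤ (Vz R)⁻¹ := (inv_pos.2 (Vz_pos R)).le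
    apply pow_le_pow_left₀ (by positivity)
    have g1 := hC R hR3
    have g2 : (Vz R)⁻¹ ≤ C * L := g1.trans (mul_le_mul_of_nonneg_left hlR (by positivity))
    calc 2 * ((Vz R)⁻¹ * (Vz R)⁻¹) ≤ 2 * ((C * L) * (C * L)) := by gcongr
      _ = (2 * C ^ 2) * L ^ 2 := by ring
      _ ≤ L * L ^ 2 := by
          apply mul_le_mul_of_nonneg_right _ (by positivity)
          linarith
      _ = L ^ 3 := by ring
  have hΛi : ∀ i, ∀ d ∈ PD (Fin k) z R, |Lr Λ i d| ≤ L ^ Bw := fun i d hd' => (Lr_abs Λ i d).trans (hΛB d hd')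
  have hsi : ∀ i, ∀ d, Lr Λ i d ≠ 0 → ∏ l, d l ≤ R ∧ d i = 1 := fun i d hd' => ⟨w2 d (Lr_ne Λ i d hd').1, (Lr_ne Λ i d hd').2⟩
  have hv := hVz z (by omega) hz2'
  have hv1 : 1 ≤ (Vz z)⁻¹ := (one_le_inv₀ (Vz_pos z)).2 (Vz_le_one z)
  -- the ratio
  have hratio : 4 * m * L * Qf z R Λ ≤ (Vz z)⁻¹ * ∑ i, Qf z R (Lr Λ i) := by
    have g1 : L ≤ 160 * Real.log R := by
      have g2 : L ≤ Real.log (((x : ℝ) + 1) ^ (W * 80)) := by
        apply Real.log_le_log hN0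
        have : ((N : ℕ) : ℝ) < (((x + 1) ^ (W * 80) : ℕ) : ℝ) := by exact_mod_cast hx3
        push_cast at this
        exact this.le
      rw [Real.log_pow] at g2
      have hx3r : (3 : ℝ) ≤ x := by exact_mod_cast hx3'
      have g3 : Real.log ((x : ℝ) + 1) ≤ 2 * Real.log x := by
        have g4 : Real.log ((x : ℝ) + 1) ≤ Real.log ((x : ℝ) ^ 2) := Real.log_le_log (by positivity) (aux_sq hx3r)
        rw [Real.log_pow] at g4
        push_cast at g4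
        exact g4
      have g5 : Real.log R = W * Real.log x := by rw [hRd]; push_cast; rw [Real.log_pow]
      rw [g5]
      calc L ≤ ((W * 80 : ℕ) : ℝ) * Real.log ((x : ℝ) + 1) := g2
        _ ≤ ((W * 80 : ℕ) : ℝ) * (2 * Real.log x) := mul_le_mul_of_nonneg_left g3 (Nat.cast_nonneg _)
        _ = _ := by push_cast; ring
    have g2 : ((J : ℝ) + 1) / (288 * C ^ 2) ≥ 640 * m := aux_ratio J C m (by rw [hJ]; push_cast; ring) hCr
    have hQ0 : 0 ≤ Qf z R Λ := by linarith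
    have hVp := Vz_pos z
    have g3 : (Vz z)⁻¹ * (((J : ℝ) + 1) / (288 * C ^ 2) * (Vz z * Real.log R) * Qf z R Λ) ≤ (Vz z)⁻¹ * ∑ i, Qf z R (Lr Λ i) :=
      mul_le_mul_of_nonneg_left w5 (by linarith)
    refine le_trans ?_ g3
    have g4 : (Vz z)⁻¹ * (((J : ℝ) + 1) / (288 * C ^ 2) * (Vz z * Real.log R) * Qf z R Λ) =
        ((J : ℝ) + 1) / (288 * C ^ 2) * Real.log R * Qf z R Λ := by
      field_simp
    rw [g4]
    apply mul_le_mul_of_nonneg_right _ hQ0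
    calc 4 * (m : ℝ) * L ≤ 4 * m * (160 * Real.log R) := by gcongr
      _ = 640 * m * Real.log R := by ring
      _ ≤ _ := mul_le_mul_of_nonneg_right g2 hlR0
  -- the arguments
  have hT0 : T1 < T2 := by
    by_contra hcon
    have e1 : T1 = T2 := by omega
    rw [e1] at hNT
    norm_num at hNT
    linarith
  obtain ⟨T, hT⟩ : ∃ T, T = (T2 : ℝ) - T1 := ⟨_, rfl⟩
  have hTn : ((T2 - T1 : ℕ) : ℝ) = T := by rw [hT]; push_cast [hT12]; ring
  have hTpos : 0 < T := by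
    rw [hT]
    have : (T1 : ℝ) < T2 := by exact_mod_cast hT0
    linarith
  have hsqN : √(N : ℝ) * √N = N := Real.mul_self_sqrt hN0.le
  have hs0 : 0 < √(N : ℝ) := Real.sqrt_pos.2 hN0
  have hNT4 : N ≤ (T2 - T1) ^ 4 := by
    have g1 : (N : ℝ) ≤ T ^ 2 * L ^ K' := by rw [hT]; exact hNT
    have g2 : (N : ℝ) * N ≤ (T ^ 2 * L ^ K') * (T ^ 2 * L ^ K') := mul_le_mul g1 g1 hN0.le (by positivity)
    have g3 : (T ^ 2 * L ^ K') * (T ^ 2 * L ^ K') = T ^ 4 * L ^ (2 * K') := by rw [pow_mul, sq (L : ℝ), mul_pow]; ring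
    have g4 : T ^ 4 * L ^ (2 * K') ≤ T ^ 4 * N := by
      apply mul_le_mul_of_nonneg_left _ (by positivity)
      linarith [b8, hsq]
    have g5 : (N : ℝ) * N ≤ T ^ 4 * N := by rw [g3] at g2; exact g2.trans g4
    have g6 : (N : ℝ) ≤ T ^ 4 := le_of_mul_le_mul_right g5 hN0
    rw [← hTn] at g6
    exact_mod_cast g6
  have hR16 : R ^ 16 ≤ T2 - T1 := by
    apply le_of_pow_le_pow_left₀ (n := 4) (by norm_num) (Nat.zero_le _)
    calc (R ^ 16) ^ 4 = R ^ 64 := by rw [← pow_mul]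
      _ ≤ R ^ 80 := Nat.pow_le_pow_right hR1 (by norm_num)
      _ ≤ _ := hR80.trans hNT4
  have hLK0 : 0 < L ^ K' := by positivity
  have hg0 : ∀ t ∈ Ioc T1 T2, ∀ l, √(N : ℝ) / L ^ K' ≤ (gz a0 b0 (t + h l) : ℝ) := by
    intro t ht l
    rw [div_le_iff₀ hLK0]
    exact (hgz t ht l).1
  have hzs : (z : ℝ) ≤ √(N : ℝ) / L ^ K' := by
    rw [le_div_iff₀ hLK0]
    calc (z : ℝ) * L ^ K' ≤ L ^ (E0 + 1) * L ^ K' := mul_le_mul_of_nonneg_right hz2' hLK0.le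
      _ = 1 * L ^ (E0 + 1 + K') := by rw [one_mul, pow_add L (E0 + 1) K']
      _ ≤ _ := b5
  have hRs : (R : ℝ) ≤ √(N : ℝ) / L ^ K' := by
    rw [le_div_iff₀ hLK0]
    apply le_of_pow_le_pow_left₀ (n := 4) (by norm_num) hs0.le
    have g1 : (R : ℝ) ^ 4 ≤ N := by
      have : R ^ 4 ≤ N := (Nat.pow_le_pow_right hR1 (by norm_num)).trans hR80
      exact_mod_cast this
    have g2 : (L ^ K') ^ 4 ≤ N := by
      rw [← pow_mul, mul_comm K' 4]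
      linarith [b7, hsq]
    calc ((R : ℝ) * L ^ K') ^ 4 = (R : ℝ) ^ 4 * (L ^ K') ^ 4 := mul_pow _ _ _
      _ ≤ (N : ℝ) * (N : ℝ) := mul_le_mul g1 g2 (by positivity) hN0.le
      _ = (√(N : ℝ) * √(N : ℝ)) * (√(N : ℝ) * √(N : ℝ)) := by rw [hsqN]
      _ = (√(N : ℝ)) ^ 4 := by ring
  have hgzz : ∀ t ∈ Ioc T1 T2, ∀ l, (z : ℤ) ≤ gz a0 b0 (t + h l) ∧ X + gz a0 b0 (t + h l) ≤ N := by
    intro t ht l
    refine ⟨?_, (hgz t ht l).2⟩
    have := hzs.trans (hg0 t ht l)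
    exact_mod_cast this
  have hgzR : ∀ t ∈ Ioc T1 T2, ∀ l, (R : ℤ) ≤ gz a0 b0 (t + h l) := by
    intro t ht l
    have := hRs.trans (hg0 t ht l)
    exact_mod_cast this
  have hXN : X ≤ N := by
    have ht : T2 ∈ Ioc T1 T2 := by rw [mem_Ioc]; omega
    have g1 := hgzz T2 ht ⟨0, by omega⟩
    have : (X : ℤ) ≤ N := by
      have := Int.natCast_nonneg z
      linarith [g1.1, g1.2]
    exact_mod_cast this
  -- the four quantities
  obtain ⟨M0, hM0⟩ : ∃ M0 : ((Fin k → ℕ) → ℝ) → ℕ → ℝ, M0 = fun Λ a => |∑ t ∈ Ioc T1 T2, Fq z R a0 b0 h Λ a t - T * Vq a0 b0 h z a * Qf z R Λ| := ⟨_, rfl⟩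
  have hM0n : ∀ Λ, ∀ a ∈ Icc 1 X, 0 ≤ M0 Λ a := fun Λ a _ => by rw [hM0]; exact abs_nonneg _
  have xM : ∀ Λ' : (Fin k → ℕ) → ℝ, (∀ d ∈ PD (Fin k) z R, |Λ' d| ≤ L ^ Bw) → (∀ d, Λ' d ≠ 0 → ∏ l, d l ≤ R) →
      ∑ a ∈ Icc 1 X, M0 Λ' a ≤ N * T / L ^ (A + 2) := by
    intro Λ' g1 g2
    have := hMM z R X T1 T2 hze0 hz2' hR1 hR80 hXN hT12 hR16 hNT4 Λ' g1 g2
    rw [← hT] at this
    rw [hM0]
    exact this
  obtain ⟨Er, hEr⟩ : ∃ Er : ℕ → ℝ, Er = fun a => ∑ i : Fin k, |∑ t ∈ Ioc T1 T2, Fq z R a0 b0 h (Lr Λ i) a t * dl z (va a0 b0 a (t + h i))| := ⟨_, rfl⟩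
  have hErn : ∀ a ∈ Icc 1 X, 0 ≤ Er a := fun a _ => by rw [hEr]; exact sum_nonneg fun _ _ => abs_nonneg _
  have xE : ∑ a ∈ Icc 1 X, Er a ≤ k * (N * T / L ^ (A + 2)) := by
    rw [hEr]
    dsimp only
    rw [sum_comm]
    have g1 : ∀ i ∈ (univ : Finset (Fin k)), ∑ a ∈ Icc 1 X, |∑ t ∈ Ioc T1 T2, Fq z R a0 b0 h (Lr Λ i) a t * dl z (va a0 b0 a (t + h i))| ≤ N * T / L ^ (A + 2) := by
      intro i _
      have := hEE z R X T1 T2 hze1 hz2' hR1 hR80 hR16 hNX hT12 hNT hTN hgzz i (Lr Λ i) (hΛi i) (hsi i)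
      rw [← hT] at this
      exact this
    refine (sum_le_sum g1).trans (le_of_eq ?_)
    rw [sum_const, card_univ, Fintype.card_fin, nsmul_eq_mul]
  obtain ⟨WW, hWW⟩ : ∃ WW : ℕ → ℝ, WW = fun a => ∑ t ∈ Ioc T1 T2, Fq z R a0 b0 h Λ a t ^ 2 := ⟨_, rfl⟩
  have hWWn : ∀ a ∈ Icc 1 X, 0 ≤ WW a := fun a _ => by rw [hWW]; exact sum_nonneg fun _ _ => by positivity
  have xW : ∑ a ∈ Icc 1 X, WW a ≤ T * (N * L ^ sm0) := by
    rw [hWW]
    dsimp only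
    rw [sum_comm]
    have e1 : ∀ t ∈ Ioc T1 T2, ∑ a ∈ Icc 1 X, Fq z R a0 b0 h Λ a t ^ 2 ≤ N * L ^ sm0 := by
      intro t ht
      have g1 := hM4 k hk a0 b0 h z R X N t Λ (L ^ Bw) (by positivity) hΛB (fun l => ⟨le_trans (Int.natCast_nonneg z) (hgzz t ht l).1, (hgzz t ht l).2⟩)
      rw [← hL] at g1
      have e3 : (1 + L) ≤ L ^ 2 := by nlinarith
      have e4 : (1 + L) ^ (2 ^ (4 * k)) ≤ (L ^ 2) ^ (2 ^ (4 * k)) := pow_le_pow_left₀ (by positivity) e3 _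
      have hkL : (k : ℝ) ≤ L := by
        have : (0 : ℝ) ≤ (k : ℝ) ^ 2 := by positivity
        linarith
      calc ∑ a ∈ Icc 1 X, Fq z R a0 b0 h Λ a t ^ 2 ≤ ∑ a ∈ Icc 1 X, SS z R Λ (cq a0 b0 h t) a ^ 4 := by
            apply sum_le_sum
            intro a _
            have g3 := Fq_le z R a0 b0 h Λ a t
            have g4 := Fq_nonneg z R a0 b0 h Λ a t
            calc Fq z R a0 b0 h Λ a t ^ 2 ≤ (SS z R Λ (cq a0 b0 h t) a ^ 2) ^ 2 := pow_le_pow_left₀ g4 g3 2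
              _ = _ := by ring
        _ ≤ (L ^ Bw) ^ 4 * (k * (N * (1 + L) ^ (2 ^ (4 * k)))) := g1
        _ ≤ (L ^ Bw) ^ 4 * (L * (N * (L ^ 2) ^ (2 ^ (4 * k)))) := by gcongr
        _ = N * L ^ sm0 := by rw [hsm0]; ring
    refine (sum_le_sum e1).trans (le_of_eq ?_)
    rw [sum_const, nsmul_eq_mul, Nat.card_Ioc, hTn]
  -- the exceptional sets
  have hTL : 0 < T / (2 * L) := by positivity
  have y1 : ∀ Λ' : (Fin k → ℕ) → ℝ, (∀ d ∈ PD (Fin k) z R, |Λ' d| ≤ L ^ Bw) → (∀ d, Λ' d ≠ 0 → ∏ l, d l ≤ R) →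
      (((Icc 1 X).filter (fun a => T / (2 * L) ≤ M0 Λ' a)).card : ℝ) ≤ 2 * (N / L ^ (A + 1)) := by
    intro Λ' g1 g2
    refine (markov (Icc 1 X) (M0 Λ') (hM0n Λ') (T / (2 * L)) hTL _ (xM Λ' g1 g2) _ (fun _ _ h => h)).trans (le_of_eq ?_)
    rw [show L ^ (A + 2) = L ^ (A + 1) * L by rw [← pow_succ]]
    field_simp
  have y2 : (((Icc 1 X).filter (fun a => T / L ≤ Er a)).card : ℝ) ≤ k * (N / L ^ (A + 1)) := by
    refine (markov (Icc 1 X) Er hErn (T / L) (by positivity) _ xE _ (fun _ _ h => h)).trans (le_of_eq ?_)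
    rw [show L ^ (A + 2) = L ^ (A + 1) * L by rw [← pow_succ]]
    field_simp
  have y3 : (((Icc 1 X).filter (fun a => T * L ^ sm ≤ WW a)).card : ℝ) ≤ N / L ^ (A + 1) := by
    refine (markov (Icc 1 X) WW hWWn (T * L ^ sm) (by positivity) _ xW _ (fun _ _ h => h)).trans (le_of_eq ?_)
    rw [hsm, show sm0 + A + 1 = sm0 + (A + 1) by ring, pow_add L sm0 (A + 1)]
    field_simp
  -- the bad constant terms
  have hsub : (Icc 1 X).filter (fun a : ℕ => (∀ p : ℕ, p.Prime → ∃ t : ℤ, ∀ l, ¬ (p : ℤ) ∣ a + gz a0 b0 (t + h l)) ∧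
      (((Ioc T1 T2).filter (fun t => m ≤ npq a0 b0 h a t)).card : ℝ) < ((T2 : ℝ) - T1) / L ^ D) ⊆
      ((((Icc 1 X).filter (fun a => T / (2 * L) ≤ M0 Λ a)) ∪ ((Icc 1 X).filter (fun a => T / L ≤ Er a))) ∪
        ((Icc 1 X).filter (fun a => T * L ^ sm ≤ WW a))) ∪
      univ.biUnion (fun i : Fin k => (Icc 1 X).filter (fun a => T / (2 * L) ≤ M0 (Lr Λ i) a)) := by
    intro a ha
    rw [mem_filter] at ha
    obtain ⟨haI, hnf, hbad⟩ := ha
    rw [mem_union, mem_union, mem_union, mem_biUnion, mem_filter, mem_filter, mem_filter]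
    by_contra hcon
    push Not at hcon
    obtain ⟨⟨⟨c1, c2⟩, c4⟩, c3⟩ := hcon
    have c1 := c1 haI
    have c2 := c2 haI
    have c4 := c4 haI
    have hVl := hLL z hz2' a0 b0 h a hnf
    have hV0 : 0 < Vq a0 b0 h z a := lt_of_lt_of_le (by positivity) hVl
    have hone : ∀ Q : ℝ, 1 ≤ Q → T / (2 * L) ≤ T * Vq a0 b0 h z a * Q / 2 := by
      intro Q hQ
      calc T / (2 * L) = T * (1 / L) * 1 / 2 := by field_simp
        _ ≤ _ := by gcongr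
    have c1' : |∑ t ∈ Ioc T1 T2, Fq z R a0 b0 h Λ a t - T * Vq a0 b0 h z a * Qf z R Λ| ≤ T * Vq a0 b0 h z a * Qf z R Λ / 2 := by
      rw [hM0] at c1
      exact c1.le.trans (hone _ w3)
    have c3' : ∀ i, |∑ t ∈ Ioc T1 T2, Fq z R a0 b0 h (Lr Λ i) a t - T * Vq a0 b0 h z a * Qf z R (Lr Λ i)| ≤ T * Vq a0 b0 h z a * Qf z R (Lr Λ i) / 2 := by
      intro i
      have := c3 i (mem_univ i)
      rw [mem_filter] at this
      push Not at this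
      have c3i := this haI
      rw [hM0] at c3i
      exact c3i.le.trans (hone _ (w4 i))
    have c2' : ∑ i : Fin k, |∑ t ∈ Ioc T1 T2, Fq z R a0 b0 h (Lr Λ i) a t * dl z (va a0 b0 a (t + h i))| < T * Vq a0 b0 h z a := by
      rw [hEr] at c2
      refine lt_of_lt_of_le c2 ?_
      calc T / L = T * (1 / L) := by ring
        _ ≤ _ := mul_le_mul_of_nonneg_left hVl hTpos.le
    have c4' : ∑ t ∈ Ioc T1 T2, Fq z R a0 b0 h Λ a t ^ 2 < T * L ^ sm := by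
      rw [hWW] at c4
      exact c4
    rw [← hT] at hbad
    rw [mem_Icc] at haI
    have hpt : ∀ t ∈ Ioc T1 T2, ∀ l, 0 ≤ gz a0 b0 (t + h l) ∧ R < va a0 b0 a (t + h l) ∧ va a0 b0 a (t + h l) ≤ N := by
      intro t ht l
      have g1 := hgzz t ht l
      have g2 := hgzR t ht l
      have e1 : ((t + h l : ℕ) : ℤ) = (t : ℤ) + h l := by push_cast; ring
      unfold va
      rw [e1]
      have g3 : (0 : ℤ) ≤ z := Int.natCast_nonneg z
      have g4 : (1 : ℤ) ≤ a := by exact_mod_cast haI.1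
      have g5 : (a : ℤ) ≤ X := by exact_mod_cast haI.2
      refine ⟨by linarith [g1.1], ?_, ?_⟩
      · omega
      · omega
    exact point_q m sm D N z R T1 T2 a a0 b0 h Λ L T (Vq a0 b0 h z a) hm hL hL1 hN1 hT hTpos hVl hpt hDd (by
      have : (0 : ℝ) ≤ k := Nat.cast_nonneg k
      linarith) hv1 w3 hratio c1' c3' c2' c4' hbad
  calc _ ≤ (((((((Icc 1 X).filter (fun a => T / (2 * L) ≤ M0 Λ a)) ∪ ((Icc 1 X).filter (fun a => T / L ≤ Er a))) ∪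
        ((Icc 1 X).filter (fun a => T * L ^ sm ≤ WW a))) ∪
      univ.biUnion (fun i : Fin k => (Icc 1 X).filter (fun a => T / (2 * L) ≤ M0 (Lr Λ i) a))).card : ℕ) : ℝ) := by
        exact_mod_cast card_le_card hsub
    _ ≤ (((Icc 1 X).filter (fun a => T / (2 * L) ≤ M0 Λ a)).card : ℝ) + (((Icc 1 X).filter (fun a => T / L ≤ Er a)).card : ℝ) +
        (((Icc 1 X).filter (fun a => T * L ^ sm ≤ WW a)).card : ℝ) +
        ∑ i : Fin k, (((Icc 1 X).filter (fun a => T / (2 * L) ≤ M0 (Lr Λ i) a)).card : ℝ) := by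
        exact_mod_cast (card_union_le _ _).trans (add_le_add ((card_union_le _ _).trans (add_le_add (card_union_le _ _) le_rfl)) card_biUnion_le)
    _ ≤ 2 * (N / L ^ (A + 1)) + k * (N / L ^ (A + 1)) + N / L ^ (A + 1) + ∑ _i : Fin k, 2 * ((N : ℝ) / L ^ (A + 1)) := by
        apply add_le_add (add_le_add (add_le_add (y1 Λ hΛB w2) y2) y3)
        exact sum_le_sum fun i _ => y1 (Lr Λ i) (hΛi i) (fun d hd' => (hsi i d hd').1)
    _ = (3 * k + 3) / L * (N / L ^ A) := by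
        rw [sum_const, card_univ, Fintype.card_fin, nsmul_eq_mul, pow_succ]
        field_simp
        ring
    _ ≤ 1 * (N / L ^ A) := by
        apply mul_le_mul_of_nonneg_right _ (by positivity)
        rw [div_le_one hL0]
        nlinarith
    _ = _ := one_mul _

end Pool.Agent.L0h42.CL
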