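import Mathlib
import Pool.Agent.L0h42.CL.K2

/-! From one interval of arguments to all the intervals. -/

set_option autoImplicit false
set_option linter.unusedSectionVars false
set_option linter.unusedVariables false

namespace Pool.Agent.L0h42.CL
open Finset
open Pool.Agent.L0h42.TB
open Pool.Agent.L0h42.EG
open Pool.Agent.H373R2.T7
open Pool.Agent.H807R2.Dav

/-- in every interval of length at least `√X / (log X)^B` up to `√X (log X)^B` there are many arguments with the property -/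
def Evy (X B E : ℕ) (P : ℕ → Prop) [DecidablePred P] : Prop := ∀ T M : ℕ, √(X : ℝ) ≤ M * Real.log X ^ B → ((T : ℝ) + M) ≤ √(X : ℝ) * Real.log X ^ B →
  √(X : ℝ) / Real.log X ^ E ≤ (((Ioc T (T + M)).filter P).card : ℝ)

/-- the product has no fixed prime divisor -/
def NFix {k : ℕ} (a0 b0 : ℤ) (h : Fin k → ℕ) (a : ℕ) : Prop := ∀ p : ℕ, p.Prime → ∃ t : ℤ, ∀ l, ¬ (p : ℤ) ∣ a + gz a0 b0 (t + h l)

open Classical in
noncomputable def Bad1 {k : ℕ} (a0 b0 : ℤ) (h : Fin k → ℕ) (m D X N T1 T2 : ℕ) : Finset ℕ :=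
  (Icc 1 X).filter (fun a : ℕ => NFix a0 b0 h a ∧
      (((Ioc T1 T2).filter (fun t => m ≤ npq a0 b0 h a t)).card : ℝ) < ((T2 : ℝ) - T1) / Real.log N ^ D)

open Classical in
noncomputable def BadA {k : ℕ} (a0 b0 : ℤ) (h : Fin k → ℕ) (m B E X : ℕ) : Finset ℕ :=
  (Icc 1 X).filter (fun a : ℕ => NFix a0 b0 h a ∧ ¬ Evy X B E (fun t => m ≤ npq a0 b0 h a t))

lemma gz_low {a0 b0 s : ℤ} (ha : 1 ≤ a0) (hs : 2 * |b0| ≤ s) (hs0 : 0 ≤ s) : s ^ 2 ≤ 2 * gz a0 b0 s := by
  unfold gz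
  have h1 : -|b0| ≤ b0 := neg_abs_le b0
  have h2 : 0 ≤ s ^ 2 := sq_nonneg s
  have h3 : s ^ 2 * 1 ≤ s ^ 2 * a0 := mul_le_mul_of_nonneg_left ha h2
  have h4 : -|b0| * s ≤ b0 * s := mul_le_mul_of_nonneg_right h1 hs0
  have h5 : 2 * |b0| * s ≤ s * s := mul_le_mul_of_nonneg_right hs hs0
  nlinarith

lemma gz_up {a0 b0 s : ℤ} (ha : 1 ≤ a0) (hs0 : 1 ≤ s) : gz a0 b0 s ≤ (a0 + |b0|) * s ^ 2 := by
  unfold gz
  have h1 : b0 ≤ |b0| := le_abs_self b0
  have h4 : b0 * s ≤ |b0| * s := mul_le_mul_of_nonneg_right h1 (by linarith)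
  have h5 : |b0| * s ≤ |b0| * s ^ 2 := by
    apply mul_le_mul_of_nonneg_left _ (abs_nonneg _)
    nlinarith
  nlinarith

set_option maxHeartbeats 4000000 in
open Classical in
theorem all_intervals (hC : S_CORE2) : ∀ m : ℕ, 1 ≤ m → ∃ k : ℕ, 1 ≤ k ∧ ∀ h : Fin k → ℕ, Function.Injective h →
    ∀ (a0 b0 : ℤ), 1 ≤ a0 → ∀ A B : ℕ, ∃ E X0 : ℕ, ∀ X : ℕ, X0 ≤ X → ((BadA a0 b0 h m B E X).card : ℝ) ≤ X / Real.log X ^ A := by
  intro m hm
  obtain ⟨k, hk, hcore⟩ := hC m hm
  refine ⟨k, hk, fun h hinj a0 b0 ha0 A B => ?_⟩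
  obtain ⟨K', hK'⟩ : ∃ K', K' = 4 * B + 5 := ⟨_, rfl⟩
  obtain ⟨A', hA'⟩ : ∃ A', A' = A + 4 * B + 3 := ⟨_, rfl⟩
  obtain ⟨D, N0, hD⟩ := hcore h hinj a0 b0 ha0 A' K'
  obtain ⟨H, hH⟩ : ∃ H, H = ∑ l, h l := ⟨_, rfl⟩
  have hhH : ∀ l, h l ≤ H := fun l => by rw [hH]; exact single_le_sum (f := h) (fun _ _ => Nat.zero_le _) (mem_univ l)
  obtain ⟨cb, hcb⟩ : ∃ cb : ℕ, cb = (a0 + |b0|).toNat := ⟨_, rfl⟩
  have hcbz : (cb : ℤ) = a0 + |b0| := by rw [hcb]; exact Int.toNat_of_nonneg (by positivity)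
  obtain ⟨m1, h1⟩ := ev_L' (max 32 (1 + 4 * cb : ℝ))
  obtain ⟨m2, h2⟩ := ev_log' (2 * B + 2) 64
  obtain ⟨m3, h3⟩ := ev_log' (2 * B + 2) (4 * (H + 2 * |b0| + 2 : ℝ))
  refine ⟨B + 2 * D + 1, max (max m1 m2) (max m3 (max N0 16)), ?_⟩
  intro X hX
  have n1 : m1 ≤ X := le_trans (le_trans (le_max_left _ _) (le_max_left _ _)) hX
  have n2 : m2 ≤ X := le_trans (le_trans (le_max_right _ _) (le_max_left _ _)) hX
  have nn := le_trans (le_max_right _ _) hX
  have n3 : m3 ≤ X := le_trans (le_max_left _ _) nn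
  have n4 : N0 ≤ X := le_trans (le_trans (le_max_left _ _) (le_max_right _ _)) nn
  have hX16 : 16 ≤ X := le_trans (le_trans (le_max_right _ _) (le_max_right _ _)) nn
  have b1 := h1 X n1
  have b2 := h2 X n2
  have b3 := h3 X n3
  have hX0 : (0 : ℝ) < X := by exact_mod_cast (show 0 < X by omega)
  have hX1 : (1 : ℝ) ≤ X := by exact_mod_cast (show 1 ≤ X by omega)
  set L := Real.log X with hL
  have l1 : (32 : ℝ) ≤ L := le_trans (le_max_left _ _) b1
  have l2 : (1 + 4 * cb : ℝ) ≤ L := le_trans (le_max_right _ _) b1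
  have hL1 : 1 ≤ L := by linarith
  have hL0 : 0 < L := by linarith
  obtain ⟨s, hs⟩ : ∃ s, s = √(X : ℝ) := ⟨_, rfl⟩
  rw [← hs] at b2 b3
  have hs2 : s * s = X := by rw [hs]; exact Real.mul_self_sqrt hX0.le
  have hs0 : 0 < s := by rw [hs]; exact Real.sqrt_pos.2 hX0
  have hs1 : 1 ≤ s := by rw [hs, Real.one_le_sqrt]; exact hX1
  have hLB : 1 ≤ L ^ B := one_le_pow₀ hL1
  -- the step of the grid
  obtain ⟨U, hU⟩ : ∃ U, U = ⌊s / (2 * L ^ B)⌋₊ := ⟨_, rfl⟩
  have hU1 : (U : ℝ) ≤ s / (2 * L ^ B) := by rw [hU]; exact Nat.floor_le (by positivity)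
  have hsB : 64 * L ^ 2 * L ^ B * L ^ B ≤ s := by
    refine le_trans (le_of_eq ?_) b2
    rw [pow_add, pow_mul', ]
    ring
  have hsB' : 4 * L ^ B ≤ s := by
    refine le_trans ?_ hsB
    have e1 : 64 * L ^ 2 * L ^ B * L ^ B = (16 * L ^ 2 * L ^ B) * (4 * L ^ B) := by ring
    rw [e1]
    apply le_mul_of_one_le_left (by positivity)
    have : 1 ≤ L ^ 2 := one_le_pow₀ hL1
    calc (1 : ℝ) ≤ 16 * 1 * 1 := by norm_num
      _ ≤ 16 * L ^ 2 * L ^ B := by gcongr
  have hU2 : s / (4 * L ^ B) ≤ U := by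
    have g1 := (Nat.lt_floor_add_one (s / (2 * L ^ B))).le
    rw [← hU] at g1
    have g2 : s / (2 * L ^ B) = s / (4 * L ^ B) + s / (4 * L ^ B) := by field_simp; norm_num
    have g3 : 1 ≤ s / (4 * L ^ B) := by rw [le_div_iff₀ (by positivity)]; linarith
    linarith
  have hU0 : (0 : ℝ) < U := lt_of_lt_of_le (by positivity) hU2
  have hU0' : 0 < U := by exact_mod_cast hU0
  have hUs : (U : ℝ) ≤ s := by
    refine hU1.trans ?_
    rw [div_le_iff₀ (by positivity)]
    nlinarith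
  -- the number of steps
  obtain ⟨J, hJ⟩ : ∃ J, J = ⌊s * L ^ B / U⌋₊ := ⟨_, rfl⟩
  have hJ1 : (J : ℝ) ≤ 4 * L ^ (2 * B) := by
    have g1 : (J : ℝ) ≤ s * L ^ B / U := by rw [hJ]; exact Nat.floor_le (by positivity)
    refine g1.trans ?_
    rw [div_le_iff₀ hU0]
    calc s * L ^ B = 4 * L ^ (2 * B) * (s / (4 * L ^ B)) := by rw [two_mul, pow_add]; field_simp
      _ ≤ _ := mul_le_mul_of_nonneg_left hU2 (by positivity)
  -- the parameter `N`
  obtain ⟨N, hN⟩ : ∃ N, N = X * ⌈L ^ (2 * B + 1)⌉₊ := ⟨_, rfl⟩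
  have hc1 : L ^ (2 * B + 1) ≤ ⌈L ^ (2 * B + 1)⌉₊ := Nat.le_ceil _
  have hc2 : ((⌈L ^ (2 * B + 1)⌉₊ : ℕ) : ℝ) ≤ L ^ (2 * B + 2) := by
    have g1 := (Nat.ceil_lt_add_one (show 0 ≤ L ^ (2 * B + 1) by positivity)).le
    refine g1.trans ?_
    have g2 : 1 ≤ L ^ (2 * B + 1) := one_le_pow₀ hL1
    rw [show 2 * B + 2 = (2 * B + 1) + 1 by ring, pow_succ L (2 * B + 1)]
    nlinarith
  have hN1 : X * L ^ (2 * B + 1) ≤ (N : ℝ) := by rw [hN]; push_cast; exact mul_le_mul_of_nonneg_left hc1 hX0.le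
  have hN2 : (N : ℝ) ≤ X * L ^ (2 * B + 2) := by rw [hN]; push_cast; exact mul_le_mul_of_nonneg_left hc2 hX0.le
  have hXN : (X : ℝ) ≤ N := by
    refine le_trans ?_ hN1
    exact le_mul_of_one_le_right hX0.le (one_le_pow₀ hL1)
  have hXN' : X ≤ N := by exact_mod_cast hXN
  have hNpos : (0 : ℝ) < N := by linarith
  obtain ⟨L', hL'⟩ : ∃ L', L' = Real.log N := ⟨_, rfl⟩
  have hLL : L ≤ L' := by rw [hL']; exact Real.log_le_log hX0 hXN
  have hLL2 : L' ≤ 2 * L := by
    have g1 : (N : ℝ) ≤ X * X := by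
      refine hN2.trans (mul_le_mul_of_nonneg_left ?_ hX0.le)
      rw [← hs2]
      have g2 : L ^ (2 * B + 2) ≤ s := by
        have : 0 ≤ L ^ (2 * B + 2) := by positivity
        linarith
      exact g2.trans (le_mul_of_one_le_left hs0.le hs1)
    calc L' ≤ Real.log (X * X) := by rw [hL']; exact Real.log_le_log hNpos g1
      _ = 2 * L := by rw [Real.log_mul hX0.ne' hX0.ne']; ring
  have hL'0 : 0 < L' := by linarith
  have hL'1 : 1 ≤ L' := by linarith
  -- one interval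
  have hone : ∀ j ∈ Icc 1 J, ((j : ℝ) + 1) * U ≤ s * L ^ B → ((Bad1 a0 b0 h m D X N (j * U) ((j + 1) * U)).card : ℝ) ≤ N / L' ^ A' := by
    intro j hj hjJ
    rw [mem_Icc] at hj
    have hd : ((((j + 1) * U : ℕ) : ℝ) - ((j * U : ℕ) : ℝ)) = U := by push_cast; ring
    have hdn : (j + 1) * U - j * U = U := by rw [add_mul, one_mul]; omega
    have q1 : (N : ℝ) ≤ X * Real.log N ^ K' := by
      rw [← hL']
      refine hN2.trans (mul_le_mul_of_nonneg_left ?_ hX0.le)
      calc L ^ (2 * B + 2) ≤ L ^ K' := pow_le_pow_right₀ hL1 (by omega)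
        _ ≤ L' ^ K' := pow_le_pow_left₀ hL0.le hLL _
    have q2 : j * U ≤ (j + 1) * U := Nat.mul_le_mul_right _ (by omega)
    have hU2s : (X : ℝ) ≤ U ^ 2 * L ^ (2 * B + 1) := by
      have g1 : (s / (4 * L ^ B)) ^ 2 ≤ U ^ 2 := pow_le_pow_left₀ (by positivity) hU2 2
      have g2 : (X : ℝ) = (s / (4 * L ^ B)) ^ 2 * (16 * L ^ (2 * B)) := by
        rw [← hs2, div_pow, mul_pow, ← pow_mul, mul_comm B 2]
        field_simp
        norm_num
      rw [g2]
      apply mul_le_mul g1 _ (by positivity) (by positivity)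
      rw [pow_succ]
      have : 0 ≤ L ^ (2 * B) := by positivity
      nlinarith
    have q3 : (N : ℝ) ≤ ((((j + 1) * U : ℕ) : ℝ) - ((j * U : ℕ) : ℝ)) ^ 2 * Real.log N ^ K' := by
      rw [hd, ← hL']
      calc (N : ℝ) ≤ X * L ^ (2 * B + 2) := hN2
        _ ≤ (U ^ 2 * L ^ (2 * B + 1)) * L ^ (2 * B + 2) := mul_le_mul_of_nonneg_right hU2s (by positivity)
        _ = U ^ 2 * L ^ (4 * B + 3) := by rw [mul_assoc, ← pow_add]; congr 2; ring
        _ ≤ U ^ 2 * L' ^ K' := by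
            apply mul_le_mul_of_nonneg_left _ (by positivity)
            calc L ^ (4 * B + 3) ≤ L ^ K' := pow_le_pow_right₀ hL1 (by omega)
              _ ≤ L' ^ K' := pow_le_pow_left₀ hL0.le hLL _
    have q4 : ((j + 1) * U - j * U) ^ 2 ≤ N := by
      rw [hdn]
      have : (U : ℝ) ^ 2 ≤ N := by
        calc (U : ℝ) ^ 2 ≤ s ^ 2 := pow_le_pow_left₀ hU0.le hUs 2
          _ = X := by rw [sq, hs2]
          _ ≤ N := hXN
      exact_mod_cast this
    have q5 : ∀ t ∈ Ioc (j * U) ((j + 1) * U), ∀ l, √(N : ℝ) ≤ (gz a0 b0 (t + h l) : ℝ) * Real.log N ^ K' ∧ X + gz a0 b0 (t + h l) ≤ N := by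
      intro t ht l
      rw [mem_Ioc] at ht
      have g1 : U ≤ j * U := Nat.le_mul_of_pos_left U (by omega)
      obtain ⟨v, hv⟩ : ∃ v : ℤ, v = (t : ℤ) + h l := ⟨_, rfl⟩
      rw [← hv]
      have g2 : (U : ℤ) ≤ v := by rw [hv]; have : (U : ℤ) ≤ t := by exact_mod_cast (by omega : U ≤ t)
                                  have := Int.natCast_nonneg (h l); linarith
      have g2r : (U : ℝ) ≤ v := by exact_mod_cast g2
      have hUbig : (H + 2 * |b0| + 2 : ℝ) ≤ U := by
        refine le_trans ?_ hU2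
        rw [le_div_iff₀ (by positivity)]
        calc (H + 2 * |b0| + 2 : ℝ) * (4 * L ^ B) ≤ 4 * (H + 2 * |b0| + 2 : ℝ) * L ^ (2 * B + 2) := by
              have e1 : (H + 2 * |b0| + 2 : ℝ) * (4 * L ^ B) = 4 * (H + 2 * |b0| + 2 : ℝ) * L ^ B := by ring
              rw [e1]
              apply mul_le_mul_of_nonneg_left (pow_le_pow_right₀ hL1 (by omega)) (by positivity)
          _ ≤ s := b3
      have hH0 : (0 : ℝ) ≤ H := Nat.cast_nonneg H
      have hb0 : (0 : ℝ) ≤ |(b0 : ℝ)| := abs_nonneg _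
      push_cast at hUbig
      have g3 : 2 * |b0| ≤ v := by
        have : ((2 * |b0| : ℤ) : ℝ) ≤ (v : ℝ) := by push_cast; linarith
        exact_mod_cast this
      have g4 : 1 ≤ v := by
        have : (1 : ℝ) ≤ (v : ℝ) := by linarith
        exact_mod_cast this
      have g5 := gz_low (a0 := a0) (b0 := b0) ha0 g3 (by linarith)
      have g6 := gz_up (a0 := a0) (b0 := b0) ha0 g4
      have g5r : (v : ℝ) ^ 2 ≤ 2 * (gz a0 b0 v : ℝ) := by exact_mod_cast g5
      have g6r : (gz a0 b0 v : ℝ) ≤ cb * (v : ℝ) ^ 2 := by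
        have : (gz a0 b0 v : ℤ) ≤ cb * v ^ 2 := by rw [hcbz]; exact g6
        exact_mod_cast this
      have hvs : (v : ℝ) ≤ 2 * (s * L ^ B) := by
        have e1 : (t : ℝ) ≤ s * L ^ B := by
          refine le_trans ?_ hjJ
          have : ((t : ℕ) : ℝ) ≤ (((j + 1) * U : ℕ) : ℝ) := by exact_mod_cast ht.2
          push_cast at this
          exact this
        have e2 : (h l : ℝ) ≤ s * L ^ B := by
          have e3 : (h l : ℝ) ≤ H := by exact_mod_cast hhH l
          have e4 : (U : ℝ) ≤ s * L ^ B := hUs.trans (le_mul_of_one_le_right hs0.le hLB)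
          linarith
        rw [hv]
        push_cast
        linarith
      constructor
      · rw [← hL']
        have e1 : √(N : ℝ) ≤ s * L ^ (B + 1) := by
          apply Real.sqrt_le_iff.2
          refine ⟨by positivity, hN2.trans (le_of_eq ?_)⟩
          rw [← hs2, mul_pow, ← pow_mul]
          ring
        have e2 : s * s ≤ 2 * (gz a0 b0 v : ℝ) * L ^ (2 * B + 1) := by
          calc s * s = X := hs2
            _ ≤ U ^ 2 * L ^ (2 * B + 1) := hU2s
            _ ≤ (v : ℝ) ^ 2 * L ^ (2 * B + 1) := mul_le_mul_of_nonneg_right (pow_le_pow_left₀ hU0.le g2r 2) (by positivity)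
            _ ≤ _ := mul_le_mul_of_nonneg_right g5r (by positivity)
        have hgz0 : 0 ≤ (gz a0 b0 v : ℝ) := by have := sq_nonneg (v : ℝ); linarith
        calc √(N : ℝ) ≤ s * L ^ (B + 1) := e1
          _ ≤ (s * s) * L ^ (B + 1) := mul_le_mul_of_nonneg_right (le_mul_of_one_le_left hs0.le hs1) (by positivity)
          _ ≤ (2 * (gz a0 b0 v : ℝ) * L ^ (2 * B + 1)) * L ^ (B + 1) := mul_le_mul_of_nonneg_right e2 (by positivity)
          _ = (gz a0 b0 v : ℝ) * (2 * L ^ (3 * B + 2)) := by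
              rw [show 3 * B + 2 = (2 * B + 1) + (B + 1) by ring, pow_add L (2 * B + 1) (B + 1)]; ring
          _ ≤ (gz a0 b0 v : ℝ) * (L * L ^ (3 * B + 2)) := by
              apply mul_le_mul_of_nonneg_left _ hgz0
              apply mul_le_mul_of_nonneg_right _ (by positivity)
              linarith
          _ = (gz a0 b0 v : ℝ) * L ^ (3 * B + 3) := by ring
          _ ≤ (gz a0 b0 v : ℝ) * L' ^ K' := by
              apply mul_le_mul_of_nonneg_left _ hgz0
              calc L ^ (3 * B + 3) ≤ L ^ K' := pow_le_pow_right₀ hL1 (by omega)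
                _ ≤ L' ^ K' := pow_le_pow_left₀ hL0.le hLL _
      · have e1 : (X : ℝ) + (gz a0 b0 v : ℝ) ≤ N := by
          calc (X : ℝ) + (gz a0 b0 v : ℝ) ≤ X + cb * (2 * (s * L ^ B)) ^ 2 := by
                have : (v : ℝ) ^ 2 ≤ (2 * (s * L ^ B)) ^ 2 := pow_le_pow_left₀ (by linarith [g2r, hU0]) hvs 2
                have e3 : (cb : ℝ) * (v : ℝ) ^ 2 ≤ cb * (2 * (s * L ^ B)) ^ 2 := mul_le_mul_of_nonneg_left this (Nat.cast_nonneg _)
                linarith
            _ = X * (1 + 4 * cb * L ^ (2 * B)) := by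
                rw [← hs2, mul_pow, mul_pow, ← pow_mul, mul_comm B 2]
                ring
            _ ≤ X * (L * L ^ (2 * B)) := by
                apply mul_le_mul_of_nonneg_left _ hX0.le
                have e4 : 1 ≤ L ^ (2 * B) := one_le_pow₀ hL1
                have e5 : (1 + 4 * cb : ℝ) * L ^ (2 * B) ≤ L * L ^ (2 * B) := mul_le_mul_of_nonneg_right l2 (by positivity)
                linarith
            _ = X * L ^ (2 * B + 1) := by rw [pow_succ]; ring
            _ ≤ N := hN1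
        exact_mod_cast e1
    have := hD N (n4.trans hXN') X (j * U) ((j + 1) * U) q1 q2 q3 q4 q5
    rw [← hL'] at this
    unfold Bad1 NFix
    rw [← hL']
    exact this
  -- the union
  have hsub : BadA a0 b0 h m B (B + 2 * D + 1) X ⊆ ((Icc 1 J).filter (fun j : ℕ => ((j : ℝ) + 1) * U ≤ s * L ^ B)).biUnion
      (fun j => Bad1 a0 b0 h m D X N (j * U) ((j + 1) * U)) := by
    intro a ha
    unfold BadA at ha
    rw [mem_filter] at ha
    obtain ⟨haI, hnf, hev⟩ := ha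
    unfold Evy at hev
    push Not at hev
    obtain ⟨T, M, c1, c2, c3⟩ := hev
    rw [← hL, ← hs] at c1 c2 c3
    obtain ⟨j, hj⟩ : ∃ j, j = T / U + 1 := ⟨_, rfl⟩
    have g1 : T < j * U := by rw [hj]; have := Nat.lt_mul_div_succ T hU0'; rw [mul_comm] at this; simpa using this
    have g2 : j * U ≤ T + U := by
      rw [hj, add_mul, one_mul]
      have := Nat.div_mul_le_self T U
      omega
    have g3 : 2 * (U : ℝ) ≤ M := by
      have e1 : s / L ^ B ≤ M := by rw [div_le_iff₀ (by positivity)]; exact c1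
      have e2 : 2 * (s / (2 * L ^ B)) = s / L ^ B := by field_simp
      linarith
    have g3' : 2 * U ≤ M := by exact_mod_cast g3
    have g4 : (j + 1) * U ≤ T + M := by rw [add_mul, one_mul]; omega
    have g5 : ((j : ℝ) + 1) * U ≤ s * L ^ B := by
      refine le_trans ?_ c2
      exact_mod_cast g4
    rw [mem_biUnion]
    refine ⟨j, ?_, ?_⟩
    · rw [mem_filter, mem_Icc]
      refine ⟨⟨by rw [hj]; exact Nat.le_add_left 1 _, ?_⟩, g5⟩
      rw [hJ]
      apply Nat.le_floor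
      rw [le_div_iff₀ hU0]
      have : (j : ℝ) * U ≤ ((j : ℝ) + 1) * U := by nlinarith
      linarith
    · unfold Bad1
      rw [mem_filter]
      refine ⟨haI, hnf, ?_⟩
      rw [← hL']
      have e1 : ((((j + 1) * U : ℕ) : ℝ) - ((j * U : ℕ) : ℝ)) = U := by push_cast; ring
      rw [e1]
      have e2 : (((Ioc (j * U) ((j + 1) * U)).filter (fun t => m ≤ npq a0 b0 h a t)).card : ℝ) ≤
          (((Ioc T (T + M)).filter (fun t => m ≤ npq a0 b0 h a t)).card : ℝ) := by
        norm_cast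
        apply card_le_card
        apply filter_subset_filter
        intro t ht
        rw [mem_Ioc] at ht ⊢
        omega
      refine lt_of_le_of_lt e2 (lt_of_lt_of_le c3 ?_)
      have e3 : s / L ^ (B + 2 * D + 1) = (s / (4 * L ^ B)) * (4 / L) * (1 / (L ^ 2) ^ D) := by
        rw [pow_succ, pow_add, ← pow_mul]
        field_simp
      rw [e3]
      calc (s / (4 * L ^ B)) * (4 / L) * (1 / (L ^ 2) ^ D) ≤ U * 1 * (1 / L' ^ D) := by
            apply mul_le_mul _ _ (by positivity) (by positivity)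
            · apply mul_le_mul hU2 _ (by positivity) hU0.le
              rw [div_le_one hL0]
              linarith
            · apply one_div_le_one_div_of_le (by positivity)
              apply pow_le_pow_left₀ hL'0.le
              nlinarith
        _ = U / L' ^ D := by ring
  calc ((BadA a0 b0 h m B (B + 2 * D + 1) X).card : ℝ) ≤
      ((((Icc 1 J).filter (fun j : ℕ => ((j : ℝ) + 1) * U ≤ s * L ^ B)).biUnion (fun j => Bad1 a0 b0 h m D X N (j * U) ((j + 1) * U))).card : ℝ) := by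
        exact_mod_cast card_le_card hsub
    _ ≤ ∑ j ∈ (Icc 1 J).filter (fun j : ℕ => ((j : ℝ) + 1) * U ≤ s * L ^ B), ((Bad1 a0 b0 h m D X N (j * U) ((j + 1) * U)).card : ℝ) := by
        exact_mod_cast card_biUnion_le
    _ ≤ ∑ _j ∈ (Icc 1 J).filter (fun j : ℕ => ((j : ℝ) + 1) * U ≤ s * L ^ B), (N : ℝ) / L' ^ A' := by
        apply sum_le_sum
        intro j hj
        rw [mem_filter] at hj
        exact hone j hj.1 hj.2
    _ ≤ J * (N / L' ^ A') := by
        rw [sum_const, nsmul_eq_mul]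
        apply mul_le_mul_of_nonneg_right _ (by positivity)
        have : ((Icc 1 J).filter (fun j : ℕ => ((j : ℝ) + 1) * U ≤ s * L ^ B)).card ≤ J := (card_filter_le _ _).trans (by simp)
        exact_mod_cast this
    _ ≤ (4 * L ^ (2 * B)) * ((X * L ^ (2 * B + 2)) / L ^ A') := by
        apply mul_le_mul hJ1 _ (by positivity) (by positivity)
        apply div_le_div₀ (by positivity) hN2 (by positivity)
        exact pow_le_pow_left₀ hL0.le hLL _
    _ = 4 / L * (X / L ^ A) := by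
        have e0 : L ^ A' = L ^ A * (L ^ (2 * B) * (L ^ (2 * B + 2) * L)) := by rw [hA']; ring
        rw [e0]
        field_simp
    _ ≤ 1 * (X / L ^ A) := by
        apply mul_le_mul_of_nonneg_right _ (by positivity)
        rw [div_le_one hL0]
        linarith
    _ = _ := one_mul _

end Pool.Agent.L0h42.CL
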