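import Mathlib
import Pool.Agent.L0h42.CL.K3

/-! The constant term runs through a progression: `c n + d + a x² + b x`. -/

set_option autoImplicit false
set_option linter.unusedSectionVars false
set_option linter.unusedVariables false

namespace Pool.Agent.L0h42.CL
open Finset
open Pool.Agent.L0h42.TB
open Pool.Agent.L0h42.EG
open Pool.Agent.H373R2.T7
open Pool.Agent.H807R2.Dav

/-- the number of the `l` with `x + h l < n` for which the value at `x + h l` is prime -/
def npn {k : ℕ} (c : ℕ) (a b d : ℤ) (h : Fin k → ℕ) (n x : ℕ) : ℕ :=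
  (univ.filter (fun l => x + h l < n ∧ ((c : ℤ) * n + d + gz a b (x + h l)).toNat.Prime)).card

open Classical in
noncomputable def BadN {k : ℕ} (c : ℕ) (a b d : ℤ) (h : Fin k → ℕ) (m B E N : ℕ) : Finset ℕ :=
  (Icc 1 N).filter (fun n : ℕ => (∀ p : ℕ, p.Prime → ∃ t : ℤ, ∀ l, ¬ (p : ℤ) ∣ (c : ℤ) * n + d + gz a b (t + h l)) ∧
    ¬ Evy N B E (fun x => m ≤ npn c a b d h n x))

set_option maxHeartbeats 4000000 in
open Classical in
theorem prog_intervals (hC : S_CORE2) : ∀ m : ℕ, 1 ≤ m → ∃ k : ℕ, 1 ≤ k ∧ ∀ h : Fin k → ℕ, Function.Injective h →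
    ∀ (c : ℕ) (a b d : ℤ), 1 ≤ c → 1 ≤ a → ∀ A B : ℕ, ∃ E N0 : ℕ, ∀ N : ℕ, N0 ≤ N → ((BadN c a b d h m B E N).card : ℝ) ≤ N / Real.log N ^ A := by
  intro m hm
  obtain ⟨k, hk, hall⟩ := all_intervals hC m hm
  refine ⟨k, hk, fun h hinj c a b d hc ha A B => ?_⟩
  obtain ⟨E, X0, hE⟩ := hall h hinj a b ha (A + 1) (B + 1)
  obtain ⟨H, hH⟩ : ∃ H, H = ∑ l, h l := ⟨_, rfl⟩
  have hhH : ∀ l, h l ≤ H := fun l => by rw [hH]; exact single_le_sum (f := h) (fun _ _ => Nat.zero_le _) (mem_univ l)
  obtain ⟨d0, hd0⟩ : ∃ d0 : ℕ, d0 = d.natAbs := ⟨_, rfl⟩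
  have hdd : |(d : ℤ)| = d0 := by rw [hd0]; exact Int.abs_eq_natAbs d
  have hd1 : d ≤ d0 := by rw [← hdd]; exact le_abs_self d
  have hd2 : -(d0 : ℤ) ≤ d := by rw [← hdd]; exact neg_abs_le d
  obtain ⟨m1, h1⟩ := ev_L' (max 4 (2 * ((c : ℝ) + d0) + 2))
  obtain ⟨m2, h2⟩ := ev_log' (B + 2 + A + 1) ((H : ℝ) + d0 + 4)
  refine ⟨2 * E, max (max m1 m2) (max X0 16), ?_⟩
  intro N hN
  have n1 : m1 ≤ N := le_trans (le_trans (le_max_left _ _) (le_max_left _ _)) hN
  have n2 : m2 ≤ N := le_trans (le_trans (le_max_right _ _) (le_max_left _ _)) hN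
  have n4 : X0 ≤ N := le_trans (le_trans (le_max_left _ _) (le_max_right _ _)) hN
  have hN16 : 16 ≤ N := le_trans (le_trans (le_max_right _ _) (le_max_right _ _)) hN
  have b1 := h1 N n1
  have b2 := h2 N n2
  have hN0 : (0 : ℝ) < N := by exact_mod_cast (show 0 < N by omega)
  have hN1 : (1 : ℝ) ≤ N := by exact_mod_cast (show 1 ≤ N by omega)
  set L := Real.log N with hL
  have l1 : (4 : ℝ) ≤ L := le_trans (le_max_left _ _) b1
  have l2 : (2 * ((c : ℝ) + d0) + 2) ≤ L := le_trans (le_max_right _ _) b1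
  have hL1 : 1 ≤ L := by linarith
  have hL0 : 0 < L := by linarith
  obtain ⟨s, hs⟩ : ∃ s, s = √(N : ℝ) := ⟨_, rfl⟩
  rw [← hs] at b2
  have hs2 : s * s = N := by rw [hs]; exact Real.mul_self_sqrt hN0.le
  have hs0 : 0 < s := by rw [hs]; exact Real.sqrt_pos.2 hN0
  have hs1 : 1 ≤ s := by rw [hs, Real.one_le_sqrt]; exact hN1
  have hH0 : (0 : ℝ) ≤ H := Nat.cast_nonneg H
  have hd00 : (0 : ℝ) ≤ d0 := Nat.cast_nonneg d0
  have hc1 : (1 : ℝ) ≤ c := by exact_mod_cast hc
  -- the parameter `X`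
  obtain ⟨X, hX⟩ : ∃ X, X = c * N + d0 := ⟨_, rfl⟩
  have hNX : N ≤ X := by rw [hX]; exact (Nat.le_mul_of_pos_left N (by omega)).trans (Nat.le_add_right _ _)
  have hNXr : (N : ℝ) ≤ X := by exact_mod_cast hNX
  have hXN : (X : ℝ) ≤ (c + d0) * N := by
    rw [hX]
    push_cast
    have : (d0 : ℝ) ≤ d0 * N := le_mul_of_one_le_right hd00 hN1
    linarith
  have hXL : (X : ℝ) ≤ L * N := hXN.trans (mul_le_mul_of_nonneg_right (by linarith) hN0.le)
  have hX0 : (0 : ℝ) < X := by linarith
  obtain ⟨L', hL'⟩ : ∃ L', L' = Real.log X := ⟨_, rfl⟩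
  have hLL : L ≤ L' := by rw [hL']; exact Real.log_le_log hN0 hNXr
  have hLs : L ≤ s := by
    refine le_trans ?_ b2
    have e1 : L ≤ L ^ (B + 2 + A + 1) := le_self_pow₀ hL1 (by omega)
    have e2 : (1 : ℝ) ≤ (H : ℝ) + d0 + 4 := by linarith
    calc L ≤ 1 * L ^ (B + 2 + A + 1) := by rw [one_mul]; exact e1
      _ ≤ _ := mul_le_mul_of_nonneg_right e2 (by positivity)
  have hLL2 : L' ≤ 2 * L := by
    have g1 : (X : ℝ) ≤ N * N := by
      refine hXL.trans (mul_le_mul_of_nonneg_right ?_ hN0.le)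
      refine hLs.trans ?_
      rw [← hs2]
      exact le_mul_of_one_le_left hs0.le hs1
    calc L' ≤ Real.log (N * N) := by rw [hL']; exact Real.log_le_log hX0 g1
      _ = 2 * L := by rw [Real.log_mul hN0.ne' hN0.ne']; ring
  have hL'0 : 0 < L' := by linarith
  have hL'1 : 1 ≤ L' := by linarith
  have key := hE X (n4.trans hNX)
  rw [← hL'] at key
  -- the square roots
  obtain ⟨s', hs'⟩ : ∃ s', s' = √(X : ℝ) := ⟨_, rfl⟩
  have hss : s ≤ s' := by rw [hs, hs']; exact Real.sqrt_le_sqrt hNXr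
  have hss2 : s' ≤ L * s := by
    rw [hs']
    apply Real.sqrt_le_iff.2
    refine ⟨by positivity, hXL.trans ?_⟩
    rw [mul_pow, sq s, hs2]
    apply mul_le_mul_of_nonneg_right _ hN0.le
    exact le_self_pow₀ hL1 (by norm_num)
  -- the small `n`
  obtain ⟨n0, hn0⟩ : ∃ n0, n0 = ⌊s * L ^ (B + 1) * 2⌋₊ := ⟨_, rfl⟩
  have hn0u : (n0 : ℝ) ≤ s * L ^ (B + 1) * 2 := by rw [hn0]; exact Nat.floor_le (by positivity)
  have hn0l : s * L ^ (B + 1) * 2 < n0 + 1 := by rw [hn0]; exact Nat.lt_floor_add_one _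
  -- the comparison
  have hsub : BadN c a b d h m B (2 * E) N ⊆ range (n0 + 1) ∪
      ((BadN c a b d h m B (2 * E) N).filter (fun n => n0 < n)) := by
    intro n hn
    rw [mem_union, mem_range, mem_filter]
    rcases Nat.lt_or_ge n (n0 + 1) with h3 | h3
    · exact Or.inl h3
    · exact Or.inr ⟨hn, by omega⟩
  have hbig : ∀ n ∈ (BadN c a b d h m B (2 * E) N).filter (fun n => n0 < n), ((c : ℤ) * n + d).toNat ∈ BadA a b h m (B + 1) E X ∧
      (((c : ℤ) * n + d).toNat : ℤ) = (c : ℤ) * n + d := by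
    intro n hn
    rw [mem_filter] at hn
    obtain ⟨hn, hnn⟩ := hn
    unfold BadN at hn
    rw [mem_filter, mem_Icc] at hn
    obtain ⟨⟨hn1, hnN⟩, hnf, hev⟩ := hn
    have hnr : s * L ^ (B + 1) * 2 < n := by
      refine hn0l.trans_le ?_
      exact_mod_cast (show n0 + 1 ≤ n by omega)
    have hLp : 1 ≤ L ^ (B + 1) := one_le_pow₀ hL1
    have hnbig : (H : ℝ) + d0 + 4 ≤ s := by
      refine le_trans ?_ b2
      exact le_mul_of_one_le_right (by linarith) (one_le_pow₀ hL1)
    have hsLp : s ≤ s * L ^ (B + 1) := le_mul_of_one_le_right hs0.le hLp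
    have hnd : (d0 : ℤ) + 1 ≤ n := by
      have : (d0 : ℝ) + 1 ≤ n := by linarith
      exact_mod_cast this
    have hcn : (n : ℤ) ≤ (c : ℤ) * n := by
      have : n ≤ c * n := Nat.le_mul_of_pos_left n (by omega)
      exact_mod_cast this
    have hpos : 1 ≤ (c : ℤ) * n + d := by linarith
    obtain ⟨C, hCd⟩ : ∃ C : ℕ, C = ((c : ℤ) * n + d).toNat := ⟨_, rfl⟩
    have hCz : (C : ℤ) = (c : ℤ) * n + d := by rw [hCd]; exact Int.toNat_of_nonneg (by linarith)
    rw [← hCd]
    refine ⟨?_, hCz⟩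
    unfold BadA
    rw [mem_filter, mem_Icc]
    refine ⟨⟨?_, ?_⟩, ?_, ?_⟩
    · have : (1 : ℤ) ≤ C := by rw [hCz]; exact hpos
      exact_mod_cast this
    · have e1 : (c : ℤ) * n ≤ (c : ℤ) * N := by
        have : c * n ≤ c * N := Nat.mul_le_mul_left c hnN
        exact_mod_cast this
      have : (C : ℤ) ≤ X := by
        rw [hCz, hX]
        push_cast
        linarith
      exact_mod_cast this
    · intro p hp
      obtain ⟨t, ht⟩ := hnf p hp
      exact ⟨t, fun l => by rw [hCz]; exact ht l⟩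
    · intro hcon
      apply hev
      intro T M c1 c2
      rw [← hL, ← hs] at c1 c2 ⊢
      have hcon' := hcon T M
      rw [← hL', ← hs'] at hcon'
      have q1 : s' ≤ M * L' ^ (B + 1) := by
        calc s' ≤ L * s := hss2
          _ ≤ L * (M * L ^ B) := mul_le_mul_of_nonneg_left c1 hL0.le
          _ = M * L ^ (B + 1) := by ring
          _ ≤ M * L' ^ (B + 1) := mul_le_mul_of_nonneg_left (pow_le_pow_left₀ hL0.le hLL _) (Nat.cast_nonneg _)
      have q2 : (T : ℝ) + M ≤ s' * L' ^ (B + 1) := by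
        refine c2.trans ?_
        have e1 : L ^ B ≤ L' ^ (B + 1) := (pow_le_pow_left₀ hL0.le hLL _).trans (pow_le_pow_right₀ hL'1 (by omega))
        exact mul_le_mul hss e1 (by positivity) (by linarith)
      have q3 := hcon' q1 q2
      have q4 : s / L ^ (2 * E) ≤ s' / L' ^ E := by
        apply div_le_div₀ (by linarith) hss (by positivity)
        rw [pow_mul]
        apply pow_le_pow_left₀ hL'0.le
        nlinarith
      refine q4.trans (q3.trans ?_)
      rw [Nat.cast_le]
      refine card_le_card ?_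
      intro x hx
      have hx' := mem_filter.1 hx
      refine mem_filter.2 ⟨hx'.1, hx'.2.trans ?_⟩
      unfold npq npn
      apply card_le_card
      intro l hl
      rw [mem_filter] at hl ⊢
      refine ⟨mem_univ _, ?_, ?_⟩
      · have hxI := hx'.1
        rw [mem_Ioc] at hxI
        have e1 : (x : ℝ) ≤ T + M := by exact_mod_cast hxI.2
        have e2 : (h l : ℝ) ≤ H := by exact_mod_cast hhH l
        have e3 : L ^ B ≤ L ^ (B + 1) := pow_le_pow_right₀ hL1 (by omega)
        have e4 : s * L ^ B ≤ s * L ^ (B + 1) := mul_le_mul_of_nonneg_left e3 hs0.le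
        have : (x : ℝ) + h l < n := by linarith
        exact_mod_cast this
      · have := hl.2
        unfold va at this
        rw [hCz] at this
        push_cast at this
        exact this
  have hcardbig : (((BadN c a b d h m B (2 * E) N).filter (fun n => n0 < n)).card : ℝ) ≤ X / L' ^ (A + 1) := by
    refine le_trans ?_ key
    rw [Nat.cast_le]
    apply card_le_card_of_injOn (fun n : ℕ => ((c : ℤ) * n + d).toNat)
    · intro n hn
      exact (hbig n hn).1
    · intro n hn n' hn' heq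
      have e1 := (hbig n hn).2
      have e2 := (hbig n' hn').2
      have e3 : (c : ℤ) * n + d = (c : ℤ) * n' + d := by
        rw [← e1, ← e2]
        exact_mod_cast heq
      have e4 : (c : ℤ) * n = (c : ℤ) * n' := by linarith
      have e5 : c * n = c * n' := by exact_mod_cast e4
      exact Nat.eq_of_mul_eq_mul_left (by omega) e5
  calc ((BadN c a b d h m B (2 * E) N).card : ℝ) ≤ ((range (n0 + 1) ∪ ((BadN c a b d h m B (2 * E) N).filter (fun n => n0 < n))).card : ℝ) := by
        exact_mod_cast card_le_card hsub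
    _ ≤ ((n0 : ℝ) + 1) + (((BadN c a b d h m B (2 * E) N).filter (fun n => n0 < n)).card : ℝ) := by
        have := card_union_le (range (n0 + 1)) ((BadN c a b d h m B (2 * E) N).filter (fun n => n0 < n))
        rw [card_range] at this
        exact_mod_cast this
    _ ≤ (s * L ^ (B + 1) * 2 + s * L ^ (B + 1)) + X / L' ^ (A + 1) := by
        apply add_le_add _ hcardbig
        have : 1 ≤ s * L ^ (B + 1) := one_le_mul_of_one_le_of_one_le hs1 (one_le_pow₀ hL1)
        linarith
    _ ≤ (1 / 2) * (N / L ^ A) + (1 / 2) * (N / L ^ A) := by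
        apply add_le_add
        · rw [← hs2]
          have e1 : (4 : ℝ) * L ^ (B + 2 + A + 1) ≤ s := by
            refine le_trans ?_ b2
            exact mul_le_mul_of_nonneg_right (by linarith) (by positivity)
          have e2 : L ^ (B + 2 + A + 1) = L ^ (B + 1) * L ^ A * L ^ 2 := by ring
          rw [e2] at e1
          rw [← mul_div_assoc, le_div_iff₀ (by positivity)]
          have e3 : (1 : ℝ) ≤ L ^ 2 := one_le_pow₀ hL1
          have e5 : (16 : ℝ) ≤ L ^ 2 := by nlinarith
          have e4 : (6 : ℝ) * (L ^ (B + 1) * L ^ A) ≤ s := by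
            refine le_trans ?_ e1
            have : 0 < L ^ (B + 1) * L ^ A := by positivity
            nlinarith
          nlinarith [mul_le_mul_of_nonneg_left e4 hs0.le]
        · calc (X : ℝ) / L' ^ (A + 1) ≤ ((c + d0) * N) / L ^ (A + 1) := by
                apply div_le_div₀ (by positivity) hXN (by positivity)
                exact pow_le_pow_left₀ hL0.le hLL _
            _ = ((c + d0) / L) * (N / L ^ A) := by
                rw [pow_succ]
                field_simp
            _ ≤ (1 / 2) * (N / L ^ A) := by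
                apply mul_le_mul_of_nonneg_right _ (by positivity)
                rw [div_le_iff₀ hL0]
                linarith
    _ = _ := by ring

end Pool.Agent.L0h42.CL
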