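import Mathlib
import Pool.Agent.L0h42.CL.K3
import Pool.Agent.L0h42.PP.WC
import Pool.Agent.L0h2.CL.NC
import Pool.Agent.L0h2.CL.VAR
import Pool.Agent.L0h4.CL.BD
import Pool.Agent.L0h61.CL.MA
import Pool.Agent.L0h62.CL.CNT
import Pool.Agent.L0h63.CL.CF
import Pool.Agent.L0h71.CL.IN
import Pool.Agent.L0h75.CL.R2
import Pool.Agent.L0h75.CL.PV
import Pool.Agent.L0h83.CL.GC
import Pool.Agent.L0h83.CL.TRU
import Pool.Agent.L0h84.CL.CL
import Pool.Agent.L0h85.CL.ERR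
import Pool.Agent.L0h85.CL.MAIN
import Pool.Agent.L0h89.CL.LOW2
import Pool.Agent.L0h89.CL.M4q
import Pool.Agent.L0h89.CL.WY
import Pool.Agent.L0h95.CL.W1
import Pool.Agent.L0h96.CL.CFA

/-! The assembly of the project CL. -/

set_option autoImplicit false

namespace Pool.Agent.L0h42.CL

theorem core_of (hR2 : S_R2) (hPV : S_PV) : S_CORE2 := by
  have hCNT := Pool.Agent.L0h62.CL.t_CNT Pool.Agent.L0h83.CL.t_GC
  have hNC := Pool.Agent.L0h2.CL.t_NC hCNT hR2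
  have hVAR := Pool.Agent.L0h2.CL.t_VAR hR2 Pool.Agent.L0h42.PP.wc
  have hCFA := Pool.Agent.L0h96.CL.t_CFA Pool.Agent.L0h63.CL.t_CF
  have hMAIN := Pool.Agent.L0h85.CL.t_MAIN hNC hVAR hCFA
  have hIN := Pool.Agent.L0h71.CL.t_IN (Pool.Agent.L0h61.CL.t_MA Pool.Agent.L0h95.CL.t_W1)
  have hBD := Pool.Agent.L0h4.CL.t_BD (Pool.Agent.L0h84.CL.t_CL hPV) hIN
  have hERR := Pool.Agent.L0h85.CL.ERR.t_ERR hBD Pool.Agent.L0h83.CL.t_TRU hCFA
  exact core hMAIN hERR Pool.Agent.L0h89.CL.t_LOW2 Pool.Agent.L0h89.CL.t_M4q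

theorem core_all : S_CORE2 := core_of Pool.Agent.L0h75.CL.t_R2 (Pool.Agent.L0h75.CL.t_PV Pool.Agent.L0h89.CL.t_WY)

end Pool.Agent.L0h42.CL
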